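import Pool.Agent.Lib.P7sG.Defs

set_option autoImplicit false

namespace Pool.Agent.Lib.P7sG

open Finset

section basic

variable {Ω : Type} [Fintype Ω]

theorem av_add (f g : Ω → ℝ) : av (fun x => f x + g x) = av f + av g := by
  simp [av, Finset.sum_add_distrib, add_div]

theorem av_sub (f g : Ω → ℝ) : av (fun x => f x - g x) = av f - av g := by
  simp [av, Finset.sum_sub_distrib, sub_div]

theorem av_mul_left (c : ℝ) (f : Ω → ℝ) : av (fun x => c * f x) = c * av f := by
  simp [av, ← Finset.mul_sum, mul_div_assoc]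

theorem av_mono {f g : Ω → ℝ} (h : ∀ x, f x ≤ g x) : av f ≤ av g := by
  unfold av
  exact div_le_div_of_nonneg_right (Finset.sum_le_sum fun x _ => h x) (Nat.cast_nonneg _)

theorem av_nonneg {f : Ω → ℝ} (h : ∀ x, 0 ≤ f x) : 0 ≤ av f :=
  div_nonneg (Finset.sum_nonneg fun x _ => h x) (Nat.cast_nonneg _)

theorem av_const [Nonempty Ω] (c : ℝ) : av (fun _ : Ω => c) = c := by
  have : (Fintype.card Ω : ℝ) ≠ 0 := by positivity
  simp only [av, Finset.sum_const, Finset.card_univ, nsmul_eq_mul]
  field_simp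

theorem av_sum {ι : Type} (s : Finset ι) (f : ι → Ω → ℝ) :
    av (fun x => ∑ i ∈ s, f i x) = ∑ i ∈ s, av (f i) := by
  simp only [av]
  rw [Finset.sum_comm, Finset.sum_div]

theorem av_equiv {Ω' : Type} [Fintype Ω'] (φ : Ω' ≃ Ω) (f : Ω → ℝ) :
    av (fun x => f (φ x)) = av f := by
  unfold av
  rw [Fintype.card_congr φ, Equiv.sum_comp φ f]

end basic

section pi

variable {ι Ω : Type} [Fintype ι] [DecidableEq ι] [Fintype Ω] [Nonempty Ω]

omit [Nonempty Ω] in
theorem av_pi_prod (g : ι → Ω → ℝ) :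
    av (fun ω : ι → Ω => ∏ p, g p (ω p)) = ∏ p, av (g p) := by
  unfold av
  rw [Finset.prod_div_distrib, Finset.prod_univ_sum, Fintype.piFinset_univ]
  congr 1
  rw [Fintype.card_pi]
  push_cast
  rfl

theorem av_single (p : ι) (F : Ω → ℝ) : av (fun ω : ι → Ω => F (ω p)) = av F := by
  have h := av_pi_prod (fun q : ι => if q = p then F else fun _ => 1)
  have e1 : (fun ω : ι → Ω => ∏ q, (if q = p then F else fun _ => 1) (ω q)) =
      fun ω => F (ω p) := by
    funext ω
    rw [Finset.prod_eq_single p]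
    · simp
    · intro q _ hq; simp [hq]
    · simp
  rw [e1] at h
  rw [h, Finset.prod_eq_single p]
  · simp
  · intro q _ hq
    simp only [hq, if_false]
    exact av_const 1
  · simp

theorem av_pair {p q : ι} (hpq : p ≠ q) (F G : Ω → ℝ) :
    av (fun ω : ι → Ω => F (ω p) * G (ω q)) = av F * av G := by
  have h := av_pi_prod (fun r : ι => if r = p then F else if r = q then G else fun _ => (1 : ℝ))
  have e1 : (fun ω : ι → Ω => ∏ r, (if r = p then F else if r = q then G else fun _ => (1 : ℝ)) (ω r))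
      = fun ω => F (ω p) * G (ω q) := by
    funext ω
    rw [← Finset.mul_prod_erase univ _ (mem_univ p)]
    rw [← Finset.mul_prod_erase (univ.erase p) _ (Finset.mem_erase.2 ⟨hpq.symm, mem_univ q⟩)]
    rw [Finset.prod_eq_one]
    · simp [hpq.symm]
    · intro r hr
      simp only [Finset.mem_erase] at hr
      simp [hr.1, hr.2.1]
  rw [e1] at h
  rw [h]
  rw [← Finset.mul_prod_erase univ _ (mem_univ p)]
  rw [← Finset.mul_prod_erase (univ.erase p) _ (Finset.mem_erase.2 ⟨hpq.symm, mem_univ q⟩)]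
  rw [Finset.prod_eq_one]
  · simp [hpq.symm]
  · intro r hr
    simp only [Finset.mem_erase] at hr
    simp only [hr.1, hr.2.1, if_false]
    exact av_const 1

theorem av_sum_pi (f : ι → Ω → ℝ) :
    av (fun ω : ι → Ω => ∑ p, f p (ω p)) = ∑ p, av (f p) := by
  rw [av_sum]
  exact Finset.sum_congr rfl fun p _ => av_single p (f p)

theorem av_sq_pi (f : ι → Ω → ℝ) :
    av (fun ω : ι → Ω => (∑ p, f p (ω p)) ^ 2) =
      (∑ p, av (f p)) ^ 2 + ∑ p, (av (fun x => f p x ^ 2) - (av (f p)) ^ 2) := by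
  have e1 : ∀ ω : ι → Ω, (∑ p, f p (ω p)) ^ 2 = ∑ p, ∑ q, f p (ω p) * f q (ω q) := by
    intro ω
    rw [sq, Finset.sum_mul_sum]
  simp only [e1]
  rw [av_sum]
  have e2 : ∀ p : ι, av (fun ω : ι → Ω => ∑ q, f p (ω p) * f q (ω q)) =
      ∑ q, av (f p) * av (f q) + (av (fun x => f p x ^ 2) - (av (f p)) ^ 2) := by
    intro p
    rw [av_sum]
    rw [← Finset.add_sum_erase univ _ (mem_univ p),
      ← Finset.add_sum_erase univ (fun q => av (f p) * av (f q)) (mem_univ p)]
    have e3 : ∑ q ∈ univ.erase p, av (fun ω : ι → Ω => f p (ω p) * f q (ω q)) =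
        ∑ q ∈ univ.erase p, av (f p) * av (f q) := by
      refine Finset.sum_congr rfl fun q hq => ?_
      rw [Finset.mem_erase] at hq
      exact av_pair hq.1.symm (f p) (f q)
    rw [e3]
    have e4 : av (fun ω : ι → Ω => f p (ω p) * f p (ω p)) = av (fun x => f p x ^ 2) := by
      rw [← av_single (ι := ι) p (fun x => f p x ^ 2)]
      simp only [sq]
    rw [e4]
    ring
  simp only [e2]
  rw [Finset.sum_add_distrib, sq (∑ p, av (f p)), Finset.sum_mul_sum]

/-- Resampling one coordinate. -/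
theorem av_update (p : ι) (F : (ι → Ω) → ℝ) :
    av F = av fun ω : ι → Ω => av fun x : Ω => F (Function.update ω p x) := by
  unfold av
  have hΩ : (Fintype.card Ω : ℝ) ≠ 0 := by positivity
  rw [← Finset.sum_div]
  congr 1
  rw [eq_div_iff hΩ]
  -- double counting
  have key : ∑ ω : ι → Ω, ∑ x : Ω, F (Function.update ω p x) =
      ∑ ω : ι → Ω, ∑ x : Ω, F ω := by
    rw [← Fintype.sum_prod_type', ← Fintype.sum_prod_type']
    refine Fintype.sum_equiv
      ⟨fun z : (ι → Ω) × Ω => (Function.update z.1 p z.2, z.1 p),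
       fun z => (Function.update z.1 p z.2, z.1 p), ?_, ?_⟩ _ _ ?_
    · rintro ⟨ω, x⟩
      simp
    · rintro ⟨ω, x⟩
      simp
    · rintro ⟨ω, x⟩
      rfl
  rw [key]
  simp only [Finset.sum_const, Finset.card_univ, nsmul_eq_mul]
  rw [← Finset.mul_sum, mul_comm]

end pi

/-- Marginals of uniform bits. -/
theorem av_inj {I J β : Type} [Fintype I] [Fintype J] [DecidableEq I] [DecidableEq J] [Fintype β]
    [Nonempty β] (ι : I → J) (hι : Function.Injective ι) (F : (I → β) → ℝ) :
    av (fun τ : J → β => F (fun i => τ (ι i))) = av F := by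
  classical
  let P : J → Prop := fun j => ∃ i, ι i = j
  let φ := Equiv.piEquivPiSubtypeProd P (fun _ : J => β)
  let ψ : I ≃ {j // P j} := Equiv.ofInjective ι hι
  have h1 : av (fun τ : J → β => F (fun i => τ (ι i))) =
      av (fun z : ({j // P j} → β) × ({j // ¬ P j} → β) => F (fun i => z.1 (ψ i))) := by
    rw [← av_equiv φ]
    rfl
  rw [h1]
  have h2 : av (fun z : ({j // P j} → β) × ({j // ¬ P j} → β) => F (fun i => z.1 (ψ i))) =
      av (fun z : {j // P j} → β => F (fun i => z (ψ i))) := by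
    unfold av
    rw [Fintype.sum_prod_type]
    simp only [Finset.sum_const, Finset.card_univ, nsmul_eq_mul, Fintype.card_prod]
    rw [← Finset.mul_sum]
    have : (Fintype.card ({j // ¬ P j} → β) : ℝ) ≠ 0 := by
      have : 0 < Fintype.card ({j // ¬ P j} → β) := Fintype.card_pos
      positivity
    push_cast
    field_simp
  rw [h2]
  rw [← av_equiv (Equiv.arrowCongr ψ (Equiv.refl β)) (fun z : {j // P j} → β => F (fun i => z (ψ i)))]
  congr 1
  funext z
  congr 1
  funext i
  simp [Equiv.arrowCongr]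

end Pool.Agent.Lib.P7sG
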