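import Mathlib

/-!
Go with the winners: a population of nodes of a counting tree, each node weighted by a power of two
which approximates the number of leaves below it.
-/

set_option autoImplicit false

namespace Pool.Agent.Lib.P7sG

/-- Average over a finite type. -/
noncomputable def av {Ω : Type} [Fintype Ω] (g : Ω → ℝ) : ℝ :=
  (∑ x, g x) / (Fintype.card Ω : ℝ)

/-- Number of copies of a child with exponent `e1` of a node with exponent `e0`;
`coin d` is an event of probability `2 ^ (-d)`. -/
def cp (e0 e1 : ℕ) (coin : ℕ → Bool) : ℕ :=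
  if e0 ≤ e1 then 2 ^ (e1 - e0) else if coin (e0 - e1) then 1 else 0

section

variable {Nd : Type} (ch : Nd → Bool → Nd) (e : Nd → ℕ)

/-- The offspring of the particle number `i`, which is at the node `X`. -/
def offs (coin : ℕ → Bool → ℕ → Bool) (i : ℕ) (X : Nd) : List Nd :=
  List.replicate (cp (e X) (e (ch X false)) (coin i false)) (ch X false) ++
    List.replicate (cp (e X) (e (ch X true)) (coin i true)) (ch X true)

/-- The offspring of a population whose first member has the number `i`. -/
def stepL (coin : ℕ → Bool → ℕ → Bool) : ℕ → List Nd → List Nd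
  | _, [] => []
  | i, X :: L => offs ch e coin i X ++ stepL coin (i + 1) L

/-- The process that stops for ever when the population exceeds `cap`. -/
def runF (cap : ℕ) (coin : ℕ → ℕ → Bool → ℕ → Bool) (L : List Nd) : ℕ → List Nd
  | 0 => L
  | j + 1 => if (runF cap coin L j).length ≤ cap then stepL ch e (coin j) 0 (runF cap coin L j)
      else runF cap coin L j

/-- The offspring with at most `cap` copies of each child. -/
def offsC (cap : ℕ) (coin : ℕ → Bool → ℕ → Bool) (i : ℕ) (X : Nd) : List Nd :=
  List.replicate (min cap (cp (e X) (e (ch X false)) (coin i false))) (ch X false) ++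
    List.replicate (min cap (cp (e X) (e (ch X true)) (coin i true))) (ch X true)

/-- The offspring of a population, with at most `cap` copies of each child. -/
def stepC (cap : ℕ) (coin : ℕ → Bool → ℕ → Bool) : ℕ → List Nd → List Nd
  | _, [] => []
  | i, X :: L => offsC ch e cap coin i X ++ stepC cap coin (i + 1) L

/-- The process with the population cut at `cap`. -/
def runC (cap : ℕ) (coin : ℕ → ℕ → Bool → ℕ → Bool) (L : List Nd) : ℕ → List Nd
  | 0 => L
  | j + 1 => (stepC ch e cap (coin j) 0 (runC cap coin L j)).take cap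

end

/-- Weighted size of a population. -/
noncomputable def M {Nd : Type} (e : Nd → ℕ) (Z : Nd → ℝ) (L : List Nd) : ℝ :=
  (L.map fun X => Z X / 2 ^ e X).sum

/-- Random data of one level: `cap * 2` blocks of `dm` bits. -/
abbrev Lev (cap dm : ℕ) : Type := Fin cap × Bool → Fin dm → Bool

/-- The coins of one level: the first `d` bits of the block `(i, b)` are all `true`. -/
def coinL {cap dm : ℕ} (ω : Lev cap dm) (i : ℕ) (b : Bool) (d : ℕ) : Bool :=
  decide (∃ h : i < cap, ∀ l : Fin dm, l.val < d → ω (⟨i, h⟩, b) l = true)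

/-- The coins of all levels. -/
def coins {cap dm a : ℕ} (ω : Fin a → Lev cap dm) (j : ℕ) : ℕ → Bool → ℕ → Bool :=
  if h : j < a then coinL (ω ⟨j, h⟩) else fun _ _ _ => false

/-- The data of the analysis: exact values `Z`, exponents `e` with `Z / α ≤ 2 ^ e ≤ α Z` at the valid
nodes, exact at level `a`. -/
structure Good {Nd : Type} (ch : Nd → Bool → Nd) (e : Nd → ℕ) (Z : Nd → ℝ) (ok : ℕ → Nd → Prop)
    (a dm : ℕ) (α : ℝ) : Prop where
  pos : ∀ j X, ok j X → 0 < Z X
  child : ∀ j X b, j < a → ok j X → ok (j + 1) (ch X b)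
  split : ∀ j X, j < a → ok j X → Z X = Z (ch X false) + Z (ch X true)
  up : ∀ j X, ok j X → Z X ≤ α * 2 ^ e X
  low : ∀ j X, ok j X → (2 : ℝ) ^ e X ≤ α * Z X
  leaf : ∀ X, ok a X → Z X = 2 ^ e X
  drop : ∀ j X b, j < a → ok j X → e X ≤ e (ch X b) + dm

end Pool.Agent.Lib.P7sG
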