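import Pool.Agent.Lib.P7sG.Out
import Pool.Agent.Lib.SubBisX.System
import Pool.Agent.Lib.SubBisX.Seed

/-!
Combination: good seeds and good coins.
-/

set_option autoImplicit false

namespace Pool.Agent.Lib.P7sG

open Finset Pool.Agent.Lib.SubBisX

theorem ch_eq (adj : ℕ → ℕ → Bool) : Sys.ch adj = chG adj := by
  funext X b
  rw [chG_eq]
  rfl

/-- The stream of a string. -/
def strm (l : List Bool) (i : ℕ) : Bool := l.getD i false

theorem ext_eq_strm {L : ℕ} (r : Fin L → Bool) : Seed.ext false r = strm (List.ofFn r) := by
  funext i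
  unfold Seed.ext strm
  rw [List.getD_eq_getElem?_getD, List.getElem?_ofFn]
  split_ifs <;> rfl

theorem strm_append {L : ℕ} (r : Fin L → Bool) (l : List Bool) {i : ℕ} (hi : i < L) :
    strm (List.ofFn r ++ l) i = strm (List.ofFn r) i := by
  unfold strm
  rw [List.getD_append _ _ _ _ (by simpa using hi)]

open Classical in
/-- **Three quarters.** For seven eighths of the seeds, seven eighths of the rest of the random bits
are good. -/
theorem three_quarters {S : Type} [Fintype S] {L m : ℕ} {dec : (ℕ → Bool) → S}
    (hU : Seed.Unif L dec) (hcard : 0 < Fintype.card S) {good : S → Prop}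
    (hgood : 8 * (univ.filter fun s : S => ¬ good s).card ≤ Fintype.card S)
    {Q : List Bool → Prop}
    (hQ : ∀ r : Fin L → Bool, good (dec (strm (List.ofFn r))) →
      (7 : ℝ) / 8 ≤ av fun r' : Fin m → Bool =>
        if Q (List.ofFn r ++ List.ofFn r') then (1 : ℝ) else 0) :
    3 * 2 ^ (L + m) ≤ 4 * Nat.card {r : Fin (L + m) → Bool // Q (List.ofFn r)} := by
  -- the average over all strings
  have e0 : (av fun p : (Fin L → Bool) × (Fin m → Bool) =>
      if Q (List.ofFn p.1 ++ List.ofFn p.2) then (1 : ℝ) else 0) =
      av fun r : Fin (L + m) → Bool => if Q (List.ofFn r) then (1 : ℝ) else 0 := by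
    rw [← av_equiv (Fin.appendEquiv L m (α := Bool))]
    congr 1
    funext p
    simp only [Fin.appendEquiv, Equiv.coe_fn_mk, List.ofFn_fin_append]
  have e1 : (av fun p : (Fin L → Bool) × (Fin m → Bool) =>
      if Q (List.ofFn p.1 ++ List.ofFn p.2) then (1 : ℝ) else 0) =
      av fun r : Fin L → Bool => av fun r' : Fin m → Bool =>
        if Q (List.ofFn r ++ List.ofFn r') then (1 : ℝ) else 0 := by
    unfold av
    rw [Fintype.sum_prod_type, Fintype.card_prod]
    push_cast
    rw [← Finset.sum_div, div_div]
    congr 1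
    ring
  have h0 : ∀ r : Fin L → Bool, (0 : ℝ) ≤ av fun r' : Fin m → Bool =>
      if Q (List.ofFn r ++ List.ofFn r') then (1 : ℝ) else 0 := fun r => by
    unfold av
    refine div_nonneg (Finset.sum_nonneg fun x _ => ?_) (Nat.cast_nonneg _)
    split_ifs <;> norm_num
  have h1 : (av fun r : Fin L → Bool => if good (dec (strm (List.ofFn r))) then (7 : ℝ) / 8
      else 0) ≤ av fun r : Fin L → Bool => av fun r' : Fin m → Bool =>
        if Q (List.ofFn r ++ List.ofFn r') then (1 : ℝ) else 0 := by
    unfold av
    refine div_le_div_of_nonneg_right (Finset.sum_le_sum fun r _ => ?_) (Nat.cast_nonneg _)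
    split_ifs with h
    · exact hQ r h
    · exact h0 r
  have h2 : (av fun r : Fin L → Bool => if good (dec (strm (List.ofFn r))) then (7 : ℝ) / 8
      else 0) = av fun s : S => if good s then (7 : ℝ) / 8 else 0 := by
    have := hU.2 false (fun s => if good s then (7 : ℝ) / 8 else 0)
    have e2 : (fun r : Fin L → Bool => (fun s => if good s then (7 : ℝ) / 8 else 0)
        (dec (Seed.ext false r))) = fun r => if good (dec (strm (List.ofFn r))) then (7 : ℝ) / 8
      else 0 := by
      funext r
      rw [ext_eq_strm]
    rw [e2] at this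
    exact this
  have h3 : (av fun s : S => if good s then (7 : ℝ) / 8 else 0) =
      7 / 8 * ((univ.filter fun s : S => good s).card : ℝ) / Fintype.card S := by
    unfold av
    rw [Finset.sum_ite, Finset.sum_const_zero, add_zero, Finset.sum_const, nsmul_eq_mul]
    congr 1
    ring
  have h4 : ((univ.filter fun s : S => good s).card : ℝ) ≥ 7 / 8 * Fintype.card S := by
    have h5 : (univ.filter fun s : S => good s).card + (univ.filter fun s : S => ¬ good s).card =
        Fintype.card S := by
      rw [Finset.card_filter_add_card_filter_not]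
      rfl
    have h6 : ((univ.filter fun s : S => good s).card : ℝ) +
        (univ.filter fun s : S => ¬ good s).card = Fintype.card S := by exact_mod_cast h5
    have h7 : (8 : ℝ) * (univ.filter fun s : S => ¬ good s).card ≤ Fintype.card S := by
      exact_mod_cast hgood
    linarith
  have hc : (0 : ℝ) < Fintype.card S := by exact_mod_cast hcard
  have h5 : (3 : ℝ) / 4 ≤ av fun r : Fin (L + m) → Bool =>
      if Q (List.ofFn r) then (1 : ℝ) else 0 := by
    rw [← e0, e1]
    refine le_trans ?_ h1
    rw [h2, h3, le_div_iff₀ hc]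
    nlinarith
  have h6 : (av fun r : Fin (L + m) → Bool => if Q (List.ofFn r) then (1 : ℝ) else 0) =
      (Nat.card {r : Fin (L + m) → Bool // Q (List.ofFn r)} : ℝ) / 2 ^ (L + m) := by
    unfold av
    rw [Finset.sum_ite, Finset.sum_const_zero, add_zero, Finset.sum_const, nsmul_eq_mul, mul_one,
      Nat.card_eq_fintype_card, Fintype.card_subtype]
    congr 1
    simp
  rw [h6, le_div_iff₀ (by positivity)] at h5
  have h7 : (3 : ℝ) * 2 ^ (L + m) ≤ 4 * Nat.card {r : Fin (L + m) → Bool // Q (List.ofFn r)} := by
    linarith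
  exact_mod_cast h7

end Pool.Agent.Lib.P7sG
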