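import Pool.Agent.Lib.P7sG.Run

/-!
The coins read from a tape of uniform bits.
-/

set_option autoImplicit false

namespace Pool.Agent.Lib.P7sG

open Finset

/-- The coins read from the tape `tape`, from the position `off` on: the coin `(j, i, b, d)` shows
`true` iff the first `d` bits of the block number `(j * cap + i) * 2 + b` of length `dm` are
all `true`. -/
def coinT (tape : List Bool) (off cap dm : ℕ) (j i : ℕ) (b : Bool) (d : ℕ) : Bool :=
  decide (i < cap ∧ ∀ l < min d dm,
    tape.getD (off + ((j * cap + i) * 2 + b.toNat) * dm + l) false = true)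

/-- position of a random bit -/
def posT {a cap dm : ℕ} (off : ℕ) (x : Fin a × (Fin cap × Bool) × Fin dm) : ℕ :=
  off + ((x.1.val * cap + x.2.1.1.val) * 2 + x.2.1.2.toNat) * dm + x.2.2.val

theorem posT_lt {a cap dm : ℕ} (off : ℕ) (x : Fin a × (Fin cap × Bool) × Fin dm) :
    posT off x < off + a * cap * 2 * dm := by
  obtain ⟨j, ⟨i, b⟩, l⟩ := x
  unfold posT
  simp only
  have hb : b.toNat < 2 := Bool.toNat_lt b
  have h1 : j.val * cap + i.val + 1 ≤ a * cap := by
    have : (j.val + 1) * cap ≤ a * cap := Nat.mul_le_mul_right _ j.isLt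
    have := i.isLt
    nlinarith
  have h2 : (j.val * cap + i.val) * 2 + b.toNat + 1 ≤ a * cap * 2 := by omega
  have h3 : ((j.val * cap + i.val) * 2 + b.toNat + 1) * dm ≤ a * cap * 2 * dm :=
    Nat.mul_le_mul_right _ h2
  have := l.isLt
  nlinarith

theorem posT_inj {a cap dm : ℕ} (off : ℕ) :
    Function.Injective (posT off : Fin a × (Fin cap × Bool) × Fin dm → ℕ) := by
  rintro ⟨j, ⟨i, b⟩, l⟩ ⟨j', ⟨i', b'⟩, l'⟩ h
  unfold posT at h
  simp only at h
  have h0 : ((j.val * cap + i.val) * 2 + b.toNat) * dm + l.val =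
      ((j'.val * cap + i'.val) * 2 + b'.toNat) * dm + l'.val := by omega
  have hd : 0 < dm := Fin.pos l
  have hc : 0 < cap := Fin.pos i
  have h1 : (j.val * cap + i.val) * 2 + b.toNat = (j'.val * cap + i'.val) * 2 + b'.toNat := by
    have e1 : (((j.val * cap + i.val) * 2 + b.toNat) * dm + l.val) / dm =
        (j.val * cap + i.val) * 2 + b.toNat := by
      rw [mul_comm _ dm, Nat.mul_add_div hd, Nat.div_eq_of_lt l.isLt, add_zero]
    have e2 : (((j'.val * cap + i'.val) * 2 + b'.toNat) * dm + l'.val) / dm =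
        (j'.val * cap + i'.val) * 2 + b'.toNat := by
      rw [mul_comm _ dm, Nat.mul_add_div hd, Nat.div_eq_of_lt l'.isLt, add_zero]
    rw [← e1, ← e2, h0]
  have hl : l.val = l'.val := by rw [h1] at h0; omega
  have hb : b.toNat < 2 := Bool.toNat_lt b
  have hb' : b'.toNat < 2 := Bool.toNat_lt b'
  have h2 : j.val * cap + i.val = j'.val * cap + i'.val := by omega
  have hbb : b.toNat = b'.toNat := by omega
  have h3 : j.val = j'.val := by
    have e1 : (j.val * cap + i.val) / cap = j.val := by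
      rw [mul_comm _ cap, Nat.mul_add_div hc, Nat.div_eq_of_lt i.isLt, add_zero]
    have e2 : (j'.val * cap + i'.val) / cap = j'.val := by
      rw [mul_comm _ cap, Nat.mul_add_div hc, Nat.div_eq_of_lt i'.isLt, add_zero]
    rw [← e1, ← e2, h2]
  have h4 : i.val = i'.val := by rw [h3] at h2; omega
  have h5 : b = b' := by
    cases b <;> cases b' <;> simp_all
  have h6 : j = j' := Fin.ext h3
  have h7 : i = i' := Fin.ext h4
  have h8 : l = l' := Fin.ext hl
  subst h5; subst h6; subst h7; subst h8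
  rfl

/-- The random data read from the tape. -/
def omT {m : ℕ} (off a cap dm : ℕ) (hm : off + a * cap * 2 * dm ≤ m) (τ : Fin m → Bool) :
    Fin a → Lev cap dm :=
  fun j p l => τ ⟨posT off (j, p, l), (posT_lt off (j, p, l)).trans_le hm⟩

theorem coins_omT {m : ℕ} (off a cap dm : ℕ) (hm : off + a * cap * 2 * dm ≤ m)
    (τ : Fin m → Bool) (j : ℕ) (hj : j < a) :
    coins (omT off a cap dm hm τ) j = coinT (List.ofFn τ) off cap dm j := by
  funext i b d
  unfold coins
  rw [dif_pos hj]
  unfold coinL coinT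
  rw [Bool.eq_iff_iff]
  simp only [decide_eq_true_eq]
  constructor
  · rintro ⟨h, h1⟩
    refine ⟨h, fun l hl => ?_⟩
    have hl' : l < dm := by omega
    have h2 := h1 ⟨l, hl'⟩ (by simp only; omega)
    unfold omT at h2
    have hlt := (posT_lt off ((⟨j, hj⟩ : Fin a), ((⟨i, h⟩ : Fin cap), b), (⟨l, hl'⟩ : Fin dm))).trans_le hm
    have e1 : off + ((j * cap + i) * 2 + b.toNat) * dm + l =
        posT off ((⟨j, hj⟩ : Fin a), ((⟨i, h⟩ : Fin cap), b), (⟨l, hl'⟩ : Fin dm)) := rfl
    rw [e1, List.getD_eq_getElem?_getD, List.getElem?_ofFn, dif_pos hlt]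
    simpa using h2
  · rintro ⟨h, h1⟩
    refine ⟨h, fun l hl => ?_⟩
    have hl' : l.val < dm := l.isLt
    have h2 := h1 l.val (by omega)
    have hlt := (posT_lt off ((⟨j, hj⟩ : Fin a), ((⟨i, h⟩ : Fin cap), b), l)).trans_le hm
    have e1 : off + ((j * cap + i) * 2 + b.toNat) * dm + l.val =
        posT off ((⟨j, hj⟩ : Fin a), ((⟨i, h⟩ : Fin cap), b), l) := rfl
    rw [e1, List.getD_eq_getElem?_getD, List.getElem?_ofFn, dif_pos hlt] at h2
    unfold omT
    simpa using h2

/-- uniform tape bits give uniform data -/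
theorem av_omT {m : ℕ} (off a cap dm : ℕ) (hm : off + a * cap * 2 * dm ≤ m)
    (F : (Fin a → Lev cap dm) → ℝ) :
    av (fun τ : Fin m → Bool => F (omT off a cap dm hm τ)) = av F := by
  let φ : (Fin a × (Fin cap × Bool) × Fin dm → Bool) ≃ (Fin a → Lev cap dm) :=
    { toFun := fun g j p l => g (j, p, l)
      invFun := fun g x => g x.1 x.2.1 x.2.2
      left_inv := fun g => rfl
      right_inv := fun g => rfl }
  have h1 := av_inj (β := Bool)
    (fun x : Fin a × (Fin cap × Bool) × Fin dm => (⟨posT off x, (posT_lt off x).trans_le hm⟩ : Fin m))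
    (fun x y h => posT_inj off (congrArg Fin.val h)) (fun g => F (φ g))
  rw [av_equiv φ F] at h1
  rw [← h1]
  rfl

variable {Nd : Type} {ch : Nd → Bool → Nd} {e : Nd → ℕ} {Z : Nd → ℝ}

theorem runC_congr {cap : ℕ} {coin coin' : ℕ → ℕ → Bool → ℕ → Bool} {L : List Nd} {j : ℕ}
    (h : ∀ l, l < j → coin l = coin' l) :
    runC ch e cap coin L j = runC ch e cap coin' L j := by
  induction j with
  | zero => rfl
  | succ j ih =>
    rw [runC, runC, ih (fun l hl => h l (by omega)), h j (by omega)]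

variable {ok : ℕ → Nd → Prop} {a dm : ℕ} {α : ℝ}

open Classical in
/-- Fraction of good tapes. -/
theorem av_tape (h : Good ch e Z ok a dm α) {cap K : ℕ} {root : Nd} (hroot : ok 0 root)
    {t : ℝ} (ht : 1 ≤ t) (hcap : 2 * α ^ 2 * K ≤ cap) (hK : 0 < K)
    {m : ℕ} (off : ℕ) (hm : off + a * cap * 2 * dm ≤ m) :
    1 - a * α ^ 2 * t ^ 2 / K ≤
      av fun τ : Fin m → Bool =>
        if |((runC ch e cap (coinT (List.ofFn τ) off cap dm) (List.replicate K root) a).length : ℝ) *
          2 ^ e root - K * Z root| ≤ K * Z root / t then (1 : ℝ) else 0 := by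
  refine (av_good h hroot ht hcap hK).trans (le_of_eq ?_)
  rw [← av_omT off a cap dm hm]
  congr 1
  funext τ
  rw [runC_congr (coin := coins (omT off a cap dm hm τ))
    (coin' := coinT (List.ofFn τ) off cap dm) (fun l hl => coins_omT off a cap dm hm τ l hl)]

end Pool.Agent.Lib.P7sG
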