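import Pool.Agent.Lib.P7sG.Bis
import Pool.Agent.Lib.SubBisX.Prob
import Pool.Agent.Lib.SubBisX.EsPoly

/-!
The final size of the population is computable in polynomial time, with the estimates `Sys.es`.
-/

set_option autoImplicit false

namespace Pool.Agent.Lib.P7sG

open Finset Pool.Agent.Lib.PolyTime Pool.Agent.Lib.Pa7c826 Pool.Agent.Lib.Pa7c826t
open Pool.Agent.Lib.SubBisX

section

variable {α : Type} {D : α → Prop} {ctx : List (α → List Bool)} {w : α → List Bool}

theorem AComp_adjOf (hw : PolyC D ctx w) :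
    AComp D ctx (fun x => nOf (w x)) (fun x => adjOf (w x)) := by
  unfold AComp
  refine poly_adj ?_ (PolyC.var (by simp)) (PolyC.var (by simp))
  exact (PolyC.lift hw (fun p hp => hp.1)).weakenRight _

/-- The parameters of the estimate are computable. -/
structure QComp (D : α → Prop) (ctx : List (α → List Bool)) (w : α → List Bool)
    (q : α → ℕ) : Prop where
  qq : PolyN D ctx q
  mu : PolyN D ctx (fun a => Par.mu (q a))
  two : PolyN D ctx (fun a => 2 ^ Par.mu (q a))
  M : PolyN D ctx (fun a => Par.MM (q a))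
  T : PolyN D ctx (fun a => Par.TT (q a))
  kap : PolyN D ctx (fun a => Par.kap (q a))
  K : PolyN D ctx (fun a => Par.KK (nOf (w a)) (q a))
  N : PolyN D ctx (fun a => (nOf (w a) + 1) ^ Par.TT (q a))

theorem EComp_es (hw : PolyC D ctx w) {q : α → ℕ} (hq : QComp D ctx w q) {r : α → List Bool}
    (hr : PolyC D ctx r) :
    EComp D ctx (fun x => nOf (w x)) (fun x => aOf (w x)) (fun x X =>
      Prob.esT (nOf (w x)) (aOf (w x)) (adjOf (w x)) (q x) (r x) X.2) := by
  unfold EComp
  have lft : ∀ {t : α → List Bool}, PolyC D ctx t →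
      PolyC (fun p : α × (ℕ × Finset ℕ) => D p.1 ∧ p.2.1 ≤ aOf (w p.1) ∧
        p.2.2 ⊆ range (nOf (w p.1)))
        (PolyTime.lift ctx ++ [fun p => un p.2.1, fun p => msk (nOf (w p.1)) p.2.2])
        (fun p => t p.1) := fun h => (PolyC.lift h (fun p hp => hp.1)).weakenRight _
  refine PolyN.congr (Tab.poly_es (w := fun p : α × (ℕ × Finset ℕ) => w p.1)
    (W := fun p => p.2.2) (q := fun p => q p.1) (r := fun p => r p.1) (lft hw)
    ⟨PolyC.var (by simp), fun p hp => hp.2.2⟩ (lft hq.qq) (lft hq.mu) (lft hq.two) (lft hq.M)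
    (lft hq.T) (lft hq.kap) (lft hq.K) (lft hq.N) (lft hr)) (fun p _ => rfl)

theorem poly_esT (hw : PolyC D ctx w) {q : α → ℕ} (hq : QComp D ctx w q) {r : α → List Bool}
    (hr : PolyC D ctx r) :
    PolyN D ctx (fun x => Prob.esT (nOf (w x)) (aOf (w x)) (adjOf (w x)) (q x) (r x)
      (range (nOf (w x)))) :=
  PolyN.congr (Tab.poly_es hw (PolyS.range (poly_nOf hw)) hq.qq hq.mu hq.two hq.M hq.T hq.kap
    hq.K hq.N hr) (fun p _ => rfl)

theorem poly_off (hw : PolyC D ctx w) {q : α → ℕ} (hq : QComp D ctx w q) :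
    PolyN D ctx (fun x => Prob.off (nOf (w x)) (q x)) :=
  (((hq.K.mul ((poly_nOf hw).mul hq.N)).mul hq.mu)).congr (fun _ _ => rfl)

theorem poly_cntT (hw : PolyC D ctx w) {q : α → ℕ} (hq : QComp D ctx w q) {r : α → List Bool}
    (hr : PolyC D ctx r) {K cap : α → ℕ} (hK : PolyN D ctx K) (hcap : PolyN D ctx cap)
    (hKc : ∀ a, D a → K a ≤ cap a) :
    PolyN D ctx (fun x => Prob.cntT (nOf (w x)) (aOf (w x)) (adjOf (w x)) (q x) (K x) (cap x)
      (r x)) := by
  have h := poly_count (n := fun x => nOf (w x)) (aN := fun x => aOf (w x)) (cap := cap)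
    (dm := fun x => 6 * nOf (w x) + 1) (off := fun x => Prob.off (nOf (w x)) (q x)) (K := K)
    (adj := fun x => adjOf (w x)) (tape := r)
    (e := fun x X => Prob.esT (nOf (w x)) (aOf (w x)) (adjOf (w x)) (q x) (r x) X.2)
    (poly_nOf hw) (poly_aOf hw) hcap (((PolyN.const 6).mul (poly_nOf hw)).succ) (poly_off hw hq)
    hK hr hKc (AComp_adjOf hw) (EComp_es hw hq hr)
  refine h.congr (fun x _ => ?_)
  unfold Prob.cntT
  rw [ch_eq]

end

end Pool.Agent.Lib.P7sG
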