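import Pool.Agent.Lib.P7sG.CntMach
import Pool.Agent.Lib.SubBisX.RandLen
import Pool.Agent.Lib.SubBisX.Par
import Pool.Agent.Lib.SubBisX.ParPoly

/-!
The number of independent sets of a bipartite graph in subexponential time.
-/

set_option autoImplicit false

namespace Pool.Agent.Lib.P7sG

open Finset Pool.Agent.Lib.PolyTime Pool.Agent.Lib.Pa7c826 Pool.Agent.Lib.Pa7c826t
open Pool.Agent.Lib.SubBisX Pool.Agent.Lib.P8e91ed.PT

/-! ### Parameters -/

/-- the number of binary digits of `t` -/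
def lg (t : ℕ) : ℕ := Nat.log 2 t + 1

theorem lt_two_pow_lg (t : ℕ) : t < 2 ^ lg t := Nat.lt_pow_succ_log_self (by norm_num) t

theorem two_pow_lg_le {t : ℕ} (ht : 1 ≤ t) : 2 ^ lg t ≤ 2 * t := by
  unfold lg
  rw [pow_succ, mul_comm]
  exact Nat.mul_le_mul_left 2 (Nat.pow_log_le_self 2 (by omega))

/-- the logarithm of the number of copies of the root -/
def kapS (t : ℕ) : ℕ := 4 * lg t

/-- the bound for the population -/
def capS (t : ℕ) : ℕ := 2 ^ (5 * lg t + 3)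

/-- The machine's answer. -/
noncomputable def ansS (n a : ℕ) (adj : ℕ → ℕ → Bool) (q t : ℕ) (l : List Bool) : List Bool :=
  outN (kapS t) (Prob.esT n a adj q l (range n)) (Prob.cntT n a adj q (2 ^ kapS t) (capS t) l)

/-- the number of random bits needed -/
def needS (n a q t : ℕ) : ℕ := Prob.off n q + a * capS t * 2 * (6 * n + 1)

section

variable {α : Type} {D : α → Prop} {ctx : List (α → List Bool)} {w : α → List Bool}

theorem poly_lg {t : α → ℕ} (ht : PolyN D ctx t) : PolyN D ctx (fun a => lg (t a)) :=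
  (n_log ht).succ

theorem poly_twoLg {t : α → ℕ} (ht : PolyN D ctx t) (h1 : ∀ a, D a → 1 ≤ t a) :
    PolyN D ctx (fun a => 2 ^ lg (t a)) := by
  obtain ⟨B, hB⟩ := Bdd.ofN ht
  refine n_pow (PolyN.const 2) (poly_lg ht) ⟨2 * B, fun a ha => ?_⟩
  refine (two_pow_lg_le (h1 a ha)).trans ?_
  rw [Polynomial.eval_mul, Polynomial.eval_ofNat]
  exact Nat.mul_le_mul_left 2 (hB a ha)

theorem poly_K {t : α → ℕ} (ht : PolyN D ctx t) (h1 : ∀ a, D a → 1 ≤ t a) :
    PolyN D ctx (fun a => 2 ^ kapS (t a)) :=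
  (PolyN.pow (poly_twoLg ht h1) 4).congr (fun a _ => by
    rw [← pow_mul, kapS, mul_comm])

theorem poly_cap {t : α → ℕ} (ht : PolyN D ctx t) (h1 : ∀ a, D a → 1 ≤ t a) :
    PolyN D ctx (fun a => capS (t a)) :=
  ((PolyN.pow (poly_twoLg ht h1) 5).mul (PolyN.const 8)).congr (fun a _ => by
    rw [← pow_mul, capS, pow_add, mul_comm (lg _)]
    norm_num)

theorem two_pow_kap_le_cap (t : ℕ) : 2 ^ kapS t ≤ capS t :=
  Nat.pow_le_pow_right (by norm_num) (by unfold kapS; omega)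

theorem poly_ansS (hw : PolyC D ctx w) {q t : α → ℕ} (hq : QComp D ctx w q)
    (ht : PolyN D ctx t) (h1 : ∀ a, D a → 1 ≤ t a) {r : α → List Bool} (hr : PolyC D ctx r) :
    PolyC D ctx (fun x => ansS (nOf (w x)) (aOf (w x)) (adjOf (w x)) (q x) (t x) (r x)) :=
  poly_outN ((PolyN.const 4).mul (poly_lg ht)) (poly_esT hw hq hr)
    (poly_cntT hw hq hr (poly_K ht h1) (poly_cap ht h1) (fun a _ => two_pow_kap_le_cap (t a)))

theorem poly_needS (hw : PolyC D ctx w) {q t : α → ℕ} (hq : QComp D ctx w q)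
    (ht : PolyN D ctx t) (h1 : ∀ a, D a → 1 ≤ t a) :
    PolyN D ctx (fun x => needS (nOf (w x)) (aOf (w x)) (q x) (t x)) :=
  (poly_off hw hq).add ((((poly_aOf hw).mul (poly_cap ht h1)).mul (PolyN.const 2)).mul
    (((PolyN.const 6).mul (poly_nOf hw)).succ))

end

/-! ### Probability -/

theorem qq_zero {t : ℕ} (ht : 1 ≤ t) : 1 ≤ Par.qq 0 t := by
  unfold Par.qq
  rw [Nat.succ_le_iff, card_pos]
  refine ⟨1, ?_⟩
  rw [mem_filter, mem_range]
  have : 0 < t.size := Nat.size_pos.2 ht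
  exact ⟨by omega, le_rfl, by simpa using ht⟩

theorem params {n a t q : ℕ} (ha : a ≤ n) (hq : 1 ≤ q) (ht : 1 ≤ t)
    (h : n = 0 ∨ ((n + 1) ^ Par.TT q ≤ t ∧ (100 : ℝ) * n ≤ q * Real.logb 2 t ∧
      (200 : ℝ) ≤ Real.logb 2 t)) :
    8 * (a * ((2 : ℝ) ^ ((5 : ℝ) * n / q + 1)) ^ 2 * (t : ℝ) ^ 2) ≤ ((2 ^ kapS t : ℕ) : ℝ) ∧
    2 * ((2 : ℝ) ^ ((5 : ℝ) * n / q + 1)) ^ 2 * ((2 ^ kapS t : ℕ) : ℝ) ≤ (capS t : ℝ) := by
  have hq0 : (0 : ℝ) < q := by exact_mod_cast hq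
  have ht0 : (0 : ℝ) < t := by exact_mod_cast ht
  have hcap : (capS t : ℝ) = (2 ^ lg t : ℝ) * 8 * ((2 ^ kapS t : ℕ) : ℝ) := by
    unfold capS kapS
    push_cast
    rw [show 5 * lg t + 3 = lg t + 3 + 4 * lg t by ring, pow_add, pow_add]
    norm_num
  have hlg : (t : ℝ) ≤ 2 ^ lg t := by exact_mod_cast (lt_two_pow_lg t).le
  have hlg1 : (1 : ℝ) ≤ 2 ^ lg t := one_le_pow₀ (by norm_num)
  have hK0 : (0 : ℝ) ≤ ((2 ^ kapS t : ℕ) : ℝ) := Nat.cast_nonneg _
  have hK4 : (t : ℝ) ^ 4 ≤ ((2 ^ kapS t : ℕ) : ℝ) := by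
    unfold kapS
    push_cast
    rw [mul_comm 4, pow_mul]
    exact pow_le_pow_left₀ ht0.le hlg 4
  rcases h with h | ⟨h1, h2, h3⟩
  · subst h
    have ha0 : a = 0 := by omega
    subst ha0
    constructor
    · simp only [Nat.cast_zero, zero_mul, mul_zero]
      exact hK0
    · rw [hcap]
      refine mul_le_mul_of_nonneg_right ?_ hK0
      simp only [Nat.cast_zero, mul_zero, zero_div, zero_add, Real.rpow_one]
      nlinarith
  · -- the power
    have e1 : ((2 : ℝ) ^ ((5 : ℝ) * n / q + 1)) ^ 2 = 4 * (2 : ℝ) ^ ((10 : ℝ) * n / q) := by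
      rw [← Real.rpow_natCast, ← Real.rpow_mul (by norm_num)]
      have : ((5 : ℝ) * n / q + 1) * ((2 : ℕ) : ℝ) = 2 + (10 : ℝ) * n / q := by
        push_cast
        ring
      rw [this, Real.rpow_add (by norm_num)]
      norm_num
    have h4 : (32 : ℝ) * (2 : ℝ) ^ ((10 : ℝ) * n / q) ≤ t := by
      have h5 : (10 : ℝ) * n / q ≤ Real.logb 2 t / 10 := by
        rw [div_le_iff₀ hq0]
        linarith
      have h6 : (32 : ℝ) * (2 : ℝ) ^ ((10 : ℝ) * n / q) = (2 : ℝ) ^ (5 + (10 : ℝ) * n / q) := by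
        rw [Real.rpow_add (by norm_num)]
        norm_num
      rw [h6]
      calc (2 : ℝ) ^ (5 + (10 : ℝ) * n / q) ≤ 2 ^ Real.logb 2 t :=
            Real.rpow_le_rpow_of_exponent_le (by norm_num) (by linarith)
        _ = t := Real.rpow_logb (by norm_num) (by norm_num) ht0
    have h5 : (0 : ℝ) ≤ (2 : ℝ) ^ ((10 : ℝ) * n / q) := by positivity
    have h6 : (a : ℝ) ≤ t := by
      have h7 : n + 1 ≤ (n + 1) ^ Par.TT q := Nat.le_self_pow (by
        have := Par.le_TT q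
        omega) _
      exact_mod_cast (by omega : a ≤ t)
    rw [e1]
    constructor
    · refine le_trans ?_ hK4
      have h7 : (0 : ℝ) ≤ (a : ℝ) := Nat.cast_nonneg _
      calc 8 * ((a : ℝ) * (4 * (2 : ℝ) ^ ((10 : ℝ) * n / q)) * (t : ℝ) ^ 2) =
            (a : ℝ) * (32 * (2 : ℝ) ^ ((10 : ℝ) * n / q)) * (t : ℝ) ^ 2 := by ring
        _ ≤ (t : ℝ) * t * (t : ℝ) ^ 2 := by
            refine mul_le_mul_of_nonneg_right ?_ (by positivity)
            exact mul_le_mul h6 h4 (by positivity) ht0.le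
        _ = (t : ℝ) ^ 4 := by ring
    · rw [hcap]
      refine mul_le_mul_of_nonneg_right ?_ hK0
      nlinarith

theorem adjOf_hbip (w : List Bool) (u v : ℕ) (h : adjOf w u v = true) :
    u < aOf w ↔ ¬ v < aOf w := by
  rcases adjOf_bip h with h | h <;> omega

/-- **The answer is good with probability three quarters.** -/
theorem goodS {G : BGraph} {t q : ℕ} (hq : 1 ≤ q) (ht : 1 ≤ t)
    (h : G.a + G.b = 0 ∨ ((G.a + G.b + 1) ^ Par.TT q ≤ t ∧
      (100 : ℝ) * (G.a + G.b : ℕ) ≤ q * Real.logb 2 t ∧ (200 : ℝ) ≤ Real.logb 2 t))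
    {m : ℕ} (hm : needS (G.a + G.b) G.a q t ≤ m) :
    3 * 2 ^ m ≤ 4 * Nat.card {r : Fin m → Bool // Pa7c826.Good G t
      (ansS (G.a + G.b) G.a (adjOf (inCode G t)) q t (List.ofFn r))} := by
  classical
  have ha : G.a ≤ G.a + G.b := Nat.le_add_right _ _
  obtain ⟨h1, h2⟩ := params (n := G.a + G.b) (a := G.a) ha hq ht h
  have hbip := adjOf_hbip (inCode G t)
  rw [aOf_inCode] at hbip
  have ht1 : (1 : ℝ) ≤ t := by exact_mod_cast ht
  have ht0 : (0 : ℝ) < t := by linarith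
  have key := Prob.prob_S (n := G.a + G.b) (a := G.a) (adj := adjOf (inCode G t)) (q := q)
    (K := 2 ^ kapS t) (cap := capS t) (m := m) (t := t) hq ha (adjOf_symm _) hbip ht1
    (by positivity) h1 h2 hm
  refine key.trans (Nat.mul_le_mul_left 4 ?_)
  rw [Nat.card_eq_fintype_card, Fintype.card_subtype]
  refine card_le_card ?_
  intro r hr
  rw [mem_filter] at hr ⊢
  refine ⟨mem_univ _, ?_⟩
  have h3 := hr.2
  rw [ind_eq_numIndep] at h3
  unfold Pa7c826.Good ansS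
  rw [outVal_outN]
  set c := Prob.cntT (G.a + G.b) G.a (adjOf (inCode G t)) q (2 ^ kapS t) (capS t) (List.ofFn r)
  set e := Prob.esT (G.a + G.b) G.a (adjOf (inCode G t)) q (List.ofFn r) (range (G.a + G.b))
  set Z := numIndep G.graph
  have h4 : (|(c : ℝ) * 2 ^ e / 2 ^ kapS t - Z| : ℝ) ≤ Z / t := by
    have hK : (0 : ℝ) < 2 ^ kapS t := by positivity
    push_cast at h3
    have e1 : (c : ℝ) * 2 ^ e / 2 ^ kapS t - Z =
        ((c : ℝ) * 2 ^ e - 2 ^ kapS t * Z) / 2 ^ kapS t := by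
      field_simp
    rw [e1, abs_div, abs_of_pos hK, div_le_iff₀ hK]
    refine h3.trans (le_of_eq ?_)
    ring
  have h5 : ((|(c : ℚ) * 2 ^ e / 2 ^ kapS t - Z| : ℚ) : ℝ) ≤ ((Z / t : ℚ) : ℝ) := by
    push_cast
    exact h4
  exact_mod_cast h5

/-! ### The theorem -/

/-- The promise. -/
def PS (G : BGraph) (t : ℕ) : Prop :=
  (2 : ℝ) ^ (200 * ((G.a + G.b : ℕ) : ℝ) ^ (2 / 3 : ℝ) *
    Real.logb 2 (((G.a + G.b : ℕ) : ℝ) + 1)) ≤ t

theorem promise {G : BGraph} {t : ℕ} (hP : PS G t) (ht : 1 ≤ t) :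
    1 ≤ Par.qq (G.a + G.b) t ∧ (G.a + G.b + 1) ^ Par.TT (Par.qq (G.a + G.b) t) ≤ t ∧
    (G.a + G.b = 0 ∨ ((G.a + G.b + 1) ^ Par.TT (Par.qq (G.a + G.b) t) ≤ t ∧
      (100 : ℝ) * (G.a + G.b : ℕ) ≤ Par.qq (G.a + G.b) t * Real.logb 2 t ∧
      (200 : ℝ) ≤ Real.logb 2 t)) := by
  rcases Nat.eq_zero_or_pos (G.a + G.b) with h0 | h0
  · rw [h0]
    exact ⟨qq_zero ht, by simpa using ht, Or.inl rfl⟩
  · obtain ⟨h1, h2, h3, h4, _⟩ := Par.par h0 ht hP
    exact ⟨h1, h2, Or.inr ⟨h2, h3, h4⟩⟩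

theorem QComp_qq {α : Type} {D : α → Prop} {ctx : List (α → List Bool)} {w : α → List Bool}
    (hw : PolyC D ctx w) {t : α → ℕ} (ht : PolyN D ctx t) :
    QComp D ctx w (fun a => Par.qq (nOf (w a)) (t a)) where
  qq := Par.poly_qq (poly_nOf hw) ht
  mu := Par.poly_mu (Par.poly_qq (poly_nOf hw) ht)
  two := Par.poly_two_mu (Par.poly_qq (poly_nOf hw) ht)
  M := Par.poly_MM (Par.poly_qq (poly_nOf hw) ht)
  T := Par.poly_TT (Par.poly_qq (poly_nOf hw) ht)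
  kap := Par.poly_kap (Par.poly_qq (poly_nOf hw) ht)
  K := Par.poly_KK (poly_nOf hw) (Par.poly_qq (poly_nOf hw) ht)
  N := Par.poly_pow_TT_qq (poly_nOf hw) ht

/-- **Theorem.** -/
theorem hasRApx_PS : Pa7c826m.HasRApx PS := by
  refine hasRApx_of
    (need := fun G t => needS (G.a + G.b) G.a (Par.qq (G.a + G.b) t) t)
    (out := fun G t r => ansS (G.a + G.b) G.a (adjOf (inCode G t)) (Par.qq (G.a + G.b) t) t r)
    ?_ ?_ ?_
  · have hw : PolyC (fun x : BGraph × ℕ => PS x.1 x.2 ∧ 1 ≤ x.2) [fun x => inCode x.1 x.2]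
        (fun x => inCode x.1 x.2) := PolyC.var (by simp)
    have ht : PolyN (fun x : BGraph × ℕ => PS x.1 x.2 ∧ 1 ≤ x.2) [fun x => inCode x.1 x.2]
        (fun x => x.2) := (poly_tOf hw).congr (fun x _ => tOf_inCode x.1 x.2)
    refine (poly_needS hw (QComp_qq hw ht) ht (fun x hx => hx.2)).congr (fun x _ => ?_)
    simp only [nOf_inCode, aOf_inCode]
  · have hw : PolyC (fun x : BGraph × ℕ × List Bool => PS x.1 x.2.1 ∧ 1 ≤ x.2.1 ∧
        needS (x.1.a + x.1.b) x.1.a (Par.qq (x.1.a + x.1.b) x.2.1) x.2.1 ≤ x.2.2.length)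
        [fun x => inCode x.1 x.2.1, fun x => x.2.2] (fun x => inCode x.1 x.2.1) :=
      PolyC.var (by simp)
    have hr : PolyC (fun x : BGraph × ℕ × List Bool => PS x.1 x.2.1 ∧ 1 ≤ x.2.1 ∧
        needS (x.1.a + x.1.b) x.1.a (Par.qq (x.1.a + x.1.b) x.2.1) x.2.1 ≤ x.2.2.length)
        [fun x => inCode x.1 x.2.1, fun x => x.2.2] (fun x => x.2.2) :=
      PolyC.var (by simp)
    have ht : PolyN (fun x : BGraph × ℕ × List Bool => PS x.1 x.2.1 ∧ 1 ≤ x.2.1 ∧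
        needS (x.1.a + x.1.b) x.1.a (Par.qq (x.1.a + x.1.b) x.2.1) x.2.1 ≤ x.2.2.length)
        [fun x => inCode x.1 x.2.1, fun x => x.2.2] (fun x => x.2.1) :=
      (poly_tOf hw).congr (fun x _ => tOf_inCode x.1 x.2.1)
    refine (poly_ansS hw (QComp_qq hw ht) ht (fun x hx => hx.2.1) hr).congr (fun x _ => ?_)
    simp only [nOf_inCode, aOf_inCode]
  · intro G t hP ht N hN
    obtain ⟨h1, -, h3⟩ := promise hP ht
    exact goodS h1 ht h3 hN

end Pool.Agent.Lib.P7sG
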