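import Pool.Agent.Lib.P7sG.Node
import Pool.Agent.Lib.Pa7c826.BISRed

/-!
The process is computable in polynomial time.
-/

set_option autoImplicit false

namespace Pool.Agent.Lib.P7sG

open Finset Pool.Agent.Lib.PolyTime Pool.Agent.Lib.Pa7c826

/-! ### General lemmas -/

/-- Using a computable function at computable arguments. -/
theorem use {α β : Type*} {D : α → Prop} {ctx : List (α → List Bool)} {t : α → List Bool}
    (h : PolyC D ctx t) {D' : β → Prop} {ctx' : List (β → List Bool)} (π : β → α)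
    (hD : ∀ b, D' b → D (π b)) (hc : ∀ f ∈ ctx, PolyC D' ctx' (fun b => f (π b))) :
    PolyC D' ctx' (fun b => t (π b)) := by
  have h1 := h.reindex π hD
  refine h1.comp ?_
  intro f hf
  rw [List.mem_map] at hf
  obtain ⟨g, hg, rfl⟩ := hf
  exact hc g hg

section

variable {α : Type*} {D : α → Prop} {ctx : List (α → List Bool)}

theorem PolyN.min {f g : α → ℕ} (hf : PolyN D ctx f) (hg : PolyN D ctx g) :
    PolyN D ctx (fun a => Min.min (f a) (g a)) :=
  (PolyN.sub hf (PolyN.sub hf hg)).congr (fun a _ => by omega)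

theorem PolyN.minPow {c x : α → ℕ} (hc : PolyN D ctx c) (hx : PolyN D ctx x) :
    PolyN D ctx (fun a => Min.min (c a) (2 ^ x a)) := by
  have X := upN (n := c) hx
  have L := last (D := D) (ctx := ctx) (n := c)
  refine (PolyN.count (φ := fun p : α × ℕ => decide (p.2 / 2 ^ x p.1 = 0)) hc
    (PolyB.natEq (PolyN.divPow L X) (PolyN.const 0))).congr (fun a _ => ?_)
  have e : (Finset.range (c a)).filter (fun i => decide (i / 2 ^ x a = 0) = true) =
      Finset.range (Min.min (c a) (2 ^ x a)) := by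
    ext i
    simp only [mem_filter, mem_range, decide_eq_true_eq, lt_min_iff]
    refine and_congr_right fun _ => ?_
    rw [Nat.div_eq_zero_iff]
    have : 0 < 2 ^ x a := by positivity
    omega
  simp only [e, card_range]

/-- The number of copies, cut. -/
theorem poly_cp {c e0 e1 : α → ℕ} {coin : α → ℕ → Bool} (hc : PolyN D ctx c)
    (h0 : PolyN D ctx e0) (h1 : PolyN D ctx e1)
    (hcoin : PolyB D ctx (fun a => coin a (e0 a - e1 a))) :
    PolyN D ctx (fun a => Min.min (c a) (cp (e0 a) (e1 a) (coin a))) := by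
  have A := PolyN.minPow hc (PolyN.sub h1 h0)
  have B := PolyN.min hc (PolyN.const (D := D) (ctx := ctx) 1)
  refine PolyN.congr (PolyN.ite (PolyB.le h0 h1) A (PolyN.ite hcoin B (PolyN.const 0)))
    (fun a _ => ?_)
  unfold cp
  simp only [decide_eq_true_eq]
  split_ifs <;> simp

/-- The coins. -/
theorem poly_coinT {tape : α → List Bool} {off cap dm j i d : α → ℕ} (b : Bool)
    (htape : PolyC D ctx tape) (hoff : PolyN D ctx off) (hcap : PolyN D ctx cap)
    (hdm : PolyN D ctx dm) (hj : PolyN D ctx j) (hi : PolyN D ctx i) (hd : PolyN D ctx d) :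
    PolyB D ctx (fun a => coinT (tape a) (off a) (cap a) (dm a) (j a) (i a) b (d a)) := by
  have hn : PolyN D ctx (fun a => Min.min (d a) (dm a)) := PolyN.min hd hdm
  have T := up (n := fun a => Min.min (d a) (dm a)) htape
  have O := upN (n := fun a => Min.min (d a) (dm a)) hoff
  have C := upN (n := fun a => Min.min (d a) (dm a)) hcap
  have M := upN (n := fun a => Min.min (d a) (dm a)) hdm
  have J := upN (n := fun a => Min.min (d a) (dm a)) hj
  have I := upN (n := fun a => Min.min (d a) (dm a)) hi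
  have L := last (D := D) (ctx := ctx) (n := fun a => Min.min (d a) (dm a))
  have P := ((O.add (((((J.mul C).add I).mul (PolyN.const 2)).add
    (PolyN.const b.toNat)).mul M)).add L)
  have G := PolyB.getD T P
  have A := PolyB.forall_lt hn G
  refine ((PolyB.lt hi hcap).and A).congr (fun a _ => ?_)
  unfold coinT
  rw [Bool.eq_iff_iff]
  simp only [Bool.and_eq_true, decide_eq_true_eq]

/-- Repeating a string. -/
theorem poly_rep {m : α → ℕ} {t : α → List Bool} (hm : PolyN D ctx m) (ht : PolyC D ctx t) :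
    PolyC D ctx (fun a => (List.range (m a)).flatMap fun _ => t a) :=
  PolyC.flatMap_range (t := fun p : α × ℕ => t p.1) hm (up ht)

end

/-! ### The step -/

section

variable {α : Type} {D : α → Prop} {ctx : List (α → List Bool)}
  {n aN cap dm off K : α → ℕ} {adj : α → ℕ → ℕ → Bool} {tape : α → List Bool}
  {e : α → ℕ × Finset ℕ → ℕ}

/-- The exponent is computable from the level and the mask. -/
def EComp (D : α → Prop) (ctx : List (α → List Bool)) (n aN : α → ℕ)
    (e : α → ℕ × Finset ℕ → ℕ) : Prop :=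
  PolyN (fun p : α × (ℕ × Finset ℕ) => D p.1 ∧ p.2.1 ≤ aN p.1 ∧ p.2.2 ⊆ range (n p.1))
    (PolyTime.lift ctx ++ [fun p => un p.2.1, fun p => msk (n p.1) p.2.2])
    (fun p => e p.1 p.2)

/-- The adjacency function is computable. -/
def AComp (D : α → Prop) (ctx : List (α → List Bool)) (n : α → ℕ)
    (adj : α → ℕ → ℕ → Bool) : Prop :=
  PolyB (fun p : α × (ℕ × ℕ) => D p.1 ∧ p.2.2 < n p.1)
    (PolyTime.lift ctx ++ [fun p => un p.2.1, fun p => un p.2.2]) (fun p => adj p.1 p.2.1 p.2.2)

theorem useE (he : EComp D ctx n aN e) {β : Type} {D' : β → Prop} {ctx' : List (β → List Bool)}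
    (π : β → α) {j : β → ℕ} {W : β → Finset ℕ} (hD : ∀ b, D' b → D (π b))
    (hc : ∀ f ∈ ctx, PolyC D' ctx' (fun b => f (π b))) (hj : PolyN D' ctx' j)
    (hj' : ∀ b, D' b → j b ≤ aN (π b)) (hW : PolyS D' ctx' (fun b => n (π b)) W) :
    PolyN D' ctx' (fun b => e (π b) (j b, W b)) := by
  refine use (β := β) he (fun b => (π b, (j b, W b)))
    (fun b hb => ⟨hD b hb, hj' b hb, hW.2 b hb⟩) ?_
  intro f hf
  simp only [PolyTime.lift, List.mem_append, List.mem_map, List.mem_cons, List.not_mem_nil,
    or_false] at hf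
  rcases hf with ⟨g, hg, rfl⟩ | rfl | rfl
  · exact hc g hg
  · exact hj
  · exact hW.1

theorem useA (ha : AComp D ctx n adj) {β : Type} {D' : β → Prop} {ctx' : List (β → List Bool)}
    (π : β → α) {u v : β → ℕ} (hD : ∀ b, D' b → D (π b))
    (hc : ∀ f ∈ ctx, PolyC D' ctx' (fun b => f (π b))) (hu : PolyN D' ctx' u)
    (hv : PolyN D' ctx' v) (hv' : ∀ b, D' b → v b < n (π b)) :
    PolyB D' ctx' (fun b => adj (π b) (u b) (v b)) := by
  refine use (β := β) ha (fun b => (π b, (u b, v b))) (fun b hb => ⟨hD b hb, hv' b hb⟩) ?_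
  intro f hf
  simp only [PolyTime.lift, List.mem_append, List.mem_map, List.mem_cons, List.not_mem_nil,
    or_false] at hf
  rcases hf with ⟨g, hg, rfl⟩ | rfl | rfl
  · exact hc g hg
  · exact hu
  · exact hv

/-- The mask of a child. -/
theorem poly_chG (ha : AComp D ctx n adj) {β : Type} {D' : β → Prop}
    {ctx' : List (β → List Bool)} (π : β → α) {j : β → ℕ} {W : β → Finset ℕ} (b : Bool)
    (hD : ∀ x, D' x → D (π x)) (hc : ∀ f ∈ ctx, PolyC D' ctx' (fun x => f (π x)))
    (hn : PolyN D ctx n) (hj : PolyN D' ctx' j) (hW : PolyS D' ctx' (fun x => n (π x)) W) :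
    PolyS D' ctx' (fun x => n (π x)) (fun x => (chG (adj (π x)) (j x, W x) b).2) := by
  have N : PolyN D' ctx' (fun x => n (π x)) := use hn π hD hc
  have J := upN (n := fun x => n (π x)) hj
  have L := last (D := D') (ctx := ctx') (n := fun x => n (π x))
  have A : PolyB (fun p : β × ℕ => D' p.1 ∧ p.2 < n (π p.1))
      (PolyTime.lift ctx' ++ [fun p => un p.2]) (fun p => adj (π p.1) (j p.1) p.2) :=
    useA ha (fun p : β × ℕ => π p.1) (fun p hp => hD p.1 hp.1)
      (fun f hf => up (n := fun x => n (π x)) (hc f hf)) J L (fun p hp => hp.2)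
  exact PolyS.filter (φ := fun p : β × ℕ =>
    (!(decide (p.2 = j p.1)) && !(b && adj (π p.1) (j p.1) p.2))) N hW
    ((PolyB.natEq L J).not.and ((PolyB.const b).and A).not)

/-- The string coding the copies of one child. -/
def blk (n cap dm off : ℕ) (adj : ℕ → ℕ → Bool) (tape : List Bool) (e : ℕ × Finset ℕ → ℕ)
    (j k : ℕ) (W : Finset ℕ) (b : Bool) : List Bool :=
  (List.range (min cap (cp (e (j, W)) (e (j + 1, (chG adj (j, W) b).2))
    (coinT tape off cap dm j k b)))).flatMap fun _ => true :: msk n (chG adj (j, W) b).2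

/-- The population after `j` levels. -/
def popL (n cap dm off K : ℕ) (adj : ℕ → ℕ → Bool) (tape : List Bool)
    (e : ℕ × Finset ℕ → ℕ) (j : ℕ) : List (ℕ × Finset ℕ) :=
  runC (chG adj) e cap (coinT tape off cap dm) (List.replicate K (0, range n)) j

theorem enc_popL_succ (n cap dm off K : ℕ) (adj : ℕ → ℕ → Bool) (tape : List Bool)
    (e : ℕ × Finset ℕ → ℕ) (j : ℕ) (L : List (ℕ × Finset ℕ))
    (hL : popL n cap dm off K adj tape e j = L) :
    ((List.range L.length).flatMap fun k =>
        blk n cap dm off adj tape e j k (L.getD k (0, ∅)).2 false ++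
        blk n cap dm off adj tape e j k (L.getD k (0, ∅)).2 true).take (cap * (n + 1)) =
      enc n (popL n cap dm off K adj tape e (j + 1)) := by
  symm
  subst hL
  rw [popL, runC, ← enc_take, stepC_range _ (0, ∅), enc_flatMap]
  change List.take _ ((List.range (popL n cap dm off K adj tape e j).length).flatMap _) = _
  congr 1
  rw [List.flatMap_def, List.flatMap_def]
  congr 1
  refine List.map_congr_left fun k hk => ?_
  rw [List.mem_range] at hk
  have h1 : ((popL n cap dm off K adj tape e j).getD k (0, ∅)).1 = j := by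
    rw [List.getD_eq_getElem _ _ hk]
    exact (runC_chG j _ (List.getElem_mem hk)).1
  have h2 : ((popL n cap dm off K adj tape e j).getD k (0, ∅)) =
      (j, ((popL n cap dm off K adj tape e j).getD k (0, ∅)).2) := Prod.ext h1 rfl
  change enc n (offsC (chG adj) e cap (coinT tape off cap dm j) (0 + k)
    ((popL n cap dm off K adj tape e j).getD k (0, ∅))) = _
  rw [h2, offsC, enc_append, enc_replicate, enc_replicate, Nat.zero_add]
  rfl

/-- **The population is computable in polynomial time.** -/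
theorem poly_pop (hn : PolyN D ctx n) (haN : PolyN D ctx aN) (hcap : PolyN D ctx cap)
    (hdm : PolyN D ctx dm) (hoff : PolyN D ctx off) (hK : PolyN D ctx K)
    (htape : PolyC D ctx tape) (hKc : ∀ a, D a → K a ≤ cap a)
    (ha : AComp D ctx n adj) (he : EComp D ctx n aN e) :
    PolyC D ctx (fun a => enc (n a)
      (popL (n a) (cap a) (dm a) (off a) (K a) (adj a) (tape a) (e a) (aN a))) := by
  obtain ⟨pn, hpn⟩ := PolyC.length_le hn
  obtain ⟨pc, hpc⟩ := PolyC.length_le hcap
  have hlen : ∀ a, D a → ∀ j,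
      (popL (n a) (cap a) (dm a) (off a) (K a) (adj a) (tape a) (e a) j).length ≤ cap a :=
    fun a h j => runC_length_le (by rw [List.length_replicate]; exact hKc a h) j
  have hmem : ∀ a j k, k < (popL (n a) (cap a) (dm a) (off a) (K a) (adj a) (tape a)
      (e a) j).length → ((popL (n a) (cap a) (dm a) (off a) (K a) (adj a) (tape a)
      (e a) j).getD k (0, ∅)).2 ⊆ range (n a) := by
    intro a j k hk
    rw [List.getD_eq_getElem _ _ hk]
    exact (runC_chG j _ (List.getElem_mem hk)).2
  refine PolyC.natRec (fun a j => enc (n a)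
      (popL (n a) (cap a) (dm a) (off a) (K a) (adj a) (tape a) (e a) j)) haN ?_ ?_
      ⟨pc * (pn + 1), fun a hD j hj => ?_⟩
  · have h1 := poly_rep hK (PolyC.cons true (PolyS.range hn).1)
    refine h1.congr (fun a _ => ?_)
    rw [popL, runC, enc_replicate]
  · set P : α × ℕ → List (ℕ × Finset ℕ) := fun p => popL (n p.1) (cap p.1) (dm p.1) (off p.1)
      (K p.1) (adj p.1) (tape p.1) (e p.1) p.2 with hP
    set D1 : α × ℕ → Prop := fun p => D p.1 ∧ p.2 < aN p.1 with hD1
    set ctx1 : List (α × ℕ → List Bool) :=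
      PolyTime.lift ctx ++ [fun p => un p.2, fun p => enc (n p.1) (P p)] with hctx1
    have N1 : PolyN D1 ctx1 (fun p => n p.1) := up2 hn
    have C1 : PolyN D1 ctx1 (fun p => cap p.1) := up2 hcap
    have M1 : PolyN D1 ctx1 (fun p => dm p.1) := up2 hdm
    have O1 : PolyN D1 ctx1 (fun p => off p.1) := up2 hoff
    have T1 : PolyC D1 ctx1 (fun p => tape p.1) := up2 htape
    have J1 : PolyN D1 ctx1 (fun p => p.2) := PolyC.var (by simp [hctx1])
    have F1 : PolyC D1 ctx1 (fun p => enc (n p.1) (P p)) := PolyC.var (by simp [hctx1])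
    have c1 : ∀ f ∈ ctx, PolyC D1 ctx1 (fun p => f p.1) := fun f hf =>
      up2 (PolyC.var hf)
    have cnt1 : PolyN D1 ctx1 (fun p => (P p).length) :=
      (PolyN.div (PolyN.length F1) N1.succ (fun _ _ => Nat.succ_pos _)).congr (fun p _ => by
        rw [enc_length, Nat.mul_div_cancel _ (Nat.succ_pos _)])
    -- the second level
    set D2 : (α × ℕ) × ℕ → Prop := fun q => D1 q.1 ∧ q.2 < (P q.1).length with hD2
    set ctx2 : List ((α × ℕ) × ℕ → List Bool) :=
      PolyTime.lift ctx1 ++ [fun q => un q.2] with hctx2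
    have N2 : PolyN D2 ctx2 (fun q => n q.1.1) := upN (n := fun p => (P p).length) N1
    have C2 : PolyN D2 ctx2 (fun q => cap q.1.1) := upN (n := fun p => (P p).length) C1
    have M2 : PolyN D2 ctx2 (fun q => dm q.1.1) := upN (n := fun p => (P p).length) M1
    have O2 : PolyN D2 ctx2 (fun q => off q.1.1) := upN (n := fun p => (P p).length) O1
    have T2 : PolyC D2 ctx2 (fun q => tape q.1.1) := up (n := fun p => (P p).length) T1
    have J2 : PolyN D2 ctx2 (fun q => q.1.2) := upN (n := fun p => (P p).length) J1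
    have F2 : PolyC D2 ctx2 (fun q => enc (n q.1.1) (P q.1)) := up (n := fun p => (P p).length) F1
    have L2 : PolyN D2 ctx2 (fun q => q.2) :=
      last (n := fun p => (P p).length)
    have c2 : ∀ f ∈ ctx, PolyC D2 ctx2 (fun q => f q.1.1) := fun f hf =>
      up (n := fun p => (P p).length) (c1 f hf)
    have W2 : PolyS D2 ctx2 (fun q => n q.1.1) (fun q => ((P q.1).getD q.2 (0, ∅)).2) := by
      refine ⟨?_, fun q hq => hmem q.1.1 q.1.2 q.2 hq.2⟩
      refine (PolyC.take (PolyC.drop F2 ((L2.mul N2.succ).succ)) N2).congr (fun q hq => ?_)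
      exact enc_block _ _ _ hq.2 _
    have S2 : ∀ b : Bool, PolyS D2 ctx2 (fun q => n q.1.1)
        (fun q => (chG (adj q.1.1) (q.1.2, ((P q.1).getD q.2 (0, ∅)).2) b).2) := fun b =>
      poly_chG ha (fun q : (α × ℕ) × ℕ => q.1.1) b (fun q hq => hq.1.1) c2 hn J2 W2
    have E0 : PolyN D2 ctx2 (fun q => e q.1.1 (q.1.2, ((P q.1).getD q.2 (0, ∅)).2)) :=
      useE he (fun q : (α × ℕ) × ℕ => q.1.1) (fun q hq => hq.1.1) c2 J2
        (fun q hq => hq.1.2.le) W2
    have E1 : ∀ b : Bool, PolyN D2 ctx2 (fun q => e q.1.1 (q.1.2 + 1,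
        (chG (adj q.1.1) (q.1.2, ((P q.1).getD q.2 (0, ∅)).2) b).2)) := fun b =>
      useE he (fun q : (α × ℕ) × ℕ => q.1.1) (fun q hq => hq.1.1) c2 J2.succ
        (fun q hq => hq.1.2) (S2 b)
    have B2 : ∀ b : Bool, PolyC D2 ctx2 (fun q => blk (n q.1.1) (cap q.1.1) (dm q.1.1)
        (off q.1.1) (adj q.1.1) (tape q.1.1) (e q.1.1) q.1.2 q.2
        ((P q.1).getD q.2 (0, ∅)).2 b) := fun b =>
      poly_rep (poly_cp C2 E0 (E1 b) (poly_coinT b T2 O2 C2 M2 J2 L2 (PolyN.sub E0 (E1 b))))
        (PolyC.cons true (S2 b).1)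
    have R1 := PolyC.take (PolyC.flatMap_range cnt1 (PolyC.append (B2 false) (B2 true)))
      (C1.mul N1.succ)
    have key : ∀ p : α × ℕ, ((List.range (P p).length).flatMap fun k =>
        blk (n p.1) (cap p.1) (dm p.1) (off p.1) (adj p.1) (tape p.1) (e p.1) p.2 k
          ((P p).getD k (0, ∅)).2 false ++
        blk (n p.1) (cap p.1) (dm p.1) (off p.1) (adj p.1) (tape p.1) (e p.1) p.2 k
          ((P p).getD k (0, ∅)).2 true).take (cap p.1 * (n p.1 + 1)) =
        enc (n p.1) (popL (n p.1) (cap p.1) (dm p.1) (off p.1) (K p.1) (adj p.1) (tape p.1)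
          (e p.1) (p.2 + 1)) := fun p =>
      enc_popL_succ (n p.1) (cap p.1) (dm p.1) (off p.1) (K p.1) (adj p.1) (tape p.1) (e p.1)
        p.2 (P p) rfl
    exact R1.congr (fun p _ => key p)
  · have h1 := hpn a hD
    have h2 := hpc a hD
    rw [un_length] at h1 h2
    rw [enc_length]
    simp only [Polynomial.eval_mul, Polynomial.eval_add, Polynomial.eval_one]
    exact Nat.mul_le_mul ((hlen a hD j).trans h2) (by omega)

/-- **The size of the final population is computable in polynomial time.** -/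
theorem poly_count (hn : PolyN D ctx n) (haN : PolyN D ctx aN) (hcap : PolyN D ctx cap)
    (hdm : PolyN D ctx dm) (hoff : PolyN D ctx off) (hK : PolyN D ctx K)
    (htape : PolyC D ctx tape) (hKc : ∀ a, D a → K a ≤ cap a)
    (ha : AComp D ctx n adj) (he : EComp D ctx n aN e) :
    PolyN D ctx (fun a => (runC (chG (adj a)) (e a) (cap a)
      (coinT (tape a) (off a) (cap a) (dm a))
      (List.replicate (K a) (0, range (n a))) (aN a)).length) := by
  refine (PolyN.div (PolyN.length (poly_pop hn haN hcap hdm hoff hK htape hKc ha he)) hn.succ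
    (fun _ _ => Nat.succ_pos _)).congr (fun a _ => ?_)
  rw [enc_length, Nat.mul_div_cancel _ (Nat.succ_pos _)]
  rfl

end

end Pool.Agent.Lib.P7sG
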