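import Pool.Agent.Lib.P7sG.Tape
import Pool.Agent.Lib.Pa7c826.Bin

/-!
The nodes `(j, W)` of the tree of independent sets, and the strings coding populations.
-/

set_option autoImplicit false

namespace Pool.Agent.Lib.P7sG

open Finset Pool.Agent.Lib.PolyTime Pool.Agent.Lib.Pa7c826

/-- The two children of the node `(j, W)`: the vertex `j` is left out, or it is taken and its
neighbours are left out. -/
def chG (adj : ℕ → ℕ → Bool) (X : ℕ × Finset ℕ) (b : Bool) : ℕ × Finset ℕ :=
  (X.1 + 1, X.2.filter fun v => (!(decide (v = X.1)) && !(b && adj X.1 v)) = true)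

theorem chG_fst (adj : ℕ → ℕ → Bool) (X : ℕ × Finset ℕ) (b : Bool) :
    (chG adj X b).1 = X.1 + 1 := rfl

theorem mem_chG {adj : ℕ → ℕ → Bool} {X : ℕ × Finset ℕ} {b : Bool} {v : ℕ} :
    v ∈ (chG adj X b).2 ↔ v ∈ X.2 ∧ v ≠ X.1 ∧ (b = true → adj X.1 v = false) := by
  unfold chG
  simp only [mem_filter]
  refine and_congr_right fun _ => ?_
  cases b <;> simp

theorem chG_subset (adj : ℕ → ℕ → Bool) (X : ℕ × Finset ℕ) (b : Bool) :
    (chG adj X b).2 ⊆ X.2 := filter_subset _ _

theorem chG_false (adj : ℕ → ℕ → Bool) (X : ℕ × Finset ℕ) :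
    (chG adj X false).2 = X.2.erase X.1 := by
  ext v
  rw [mem_chG, mem_erase]
  simp [and_comm]

theorem chG_true (adj : ℕ → ℕ → Bool) (X : ℕ × Finset ℕ) :
    (chG adj X true).2 = (X.2.erase X.1).filter (fun v => adj X.1 v = false) := by
  ext v
  rw [mem_chG, mem_filter, mem_erase]
  simp only [true_implies]
  tauto

/-! ### Codes of populations -/

/-- The string coding a population: every member gives `1` and its mask of length `n`. -/
def enc (n : ℕ) (L : List (ℕ × Finset ℕ)) : List Bool := L.flatMap fun X => true :: msk n X.2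

theorem enc_nil (n : ℕ) : enc n [] = [] := rfl

theorem enc_cons (n : ℕ) (X : ℕ × Finset ℕ) (L : List (ℕ × Finset ℕ)) :
    enc n (X :: L) = (true :: msk n X.2) ++ enc n L := by
  simp [enc]

theorem enc_append (n : ℕ) (L L' : List (ℕ × Finset ℕ)) :
    enc n (L ++ L') = enc n L ++ enc n L' := by
  simp [enc]

theorem enc_length (n : ℕ) (L : List (ℕ × Finset ℕ)) :
    (enc n L).length = L.length * (n + 1) := by
  induction L with
  | nil => simp [enc]
  | cons X L ih =>
    rw [enc_cons, List.length_append, ih, List.length_cons, msk_length, List.length_cons]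
    ring

theorem enc_take (n : ℕ) (L : List (ℕ × Finset ℕ)) (k : ℕ) :
    (enc n L).take (k * (n + 1)) = enc n (L.take k) := by
  induction L generalizing k with
  | nil => simp [enc]
  | cons X L ih =>
    rcases k with _ | k
    · simp [enc]
    · rw [enc_cons, List.take_succ_cons, enc_cons, List.take_append]
      have e1 : (k + 1) * (n + 1) - (true :: msk n X.2).length = k * (n + 1) := by
        rw [List.length_cons, msk_length, Nat.succ_mul]
        omega
      rw [e1, ih, List.take_of_length_le]
      rw [List.length_cons, msk_length, Nat.succ_mul]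
      omega

theorem enc_drop (n : ℕ) (L : List (ℕ × Finset ℕ)) (k : ℕ) :
    (enc n L).drop (k * (n + 1)) = enc n (L.drop k) := by
  induction L generalizing k with
  | nil => simp [enc]
  | cons X L ih =>
    rcases k with _ | k
    · simp [enc]
    · rw [enc_cons, List.drop_succ_cons, List.drop_append]
      have e1 : (k + 1) * (n + 1) - (true :: msk n X.2).length = k * (n + 1) := by
        rw [List.length_cons, msk_length, Nat.succ_mul]
        omega
      rw [e1, ih, List.drop_of_length_le, List.nil_append]
      rw [List.length_cons, msk_length, Nat.succ_mul]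
      omega

theorem enc_block (n : ℕ) (L : List (ℕ × Finset ℕ)) (k : ℕ) (h : k < L.length)
    (X0 : ℕ × Finset ℕ) :
    ((enc n L).drop (k * (n + 1) + 1)).take n = msk n (L.getD k X0).2 := by
  rw [← List.drop_drop, enc_drop]
  have h1 : L.drop k = L.getD k X0 :: L.drop (k + 1) := by
    rw [List.getD_eq_getElem _ _ h]
    exact List.drop_eq_getElem_cons h
  rw [h1, enc_cons]
  simp only [List.cons_append, List.drop_succ_cons, List.drop_zero]
  rw [List.take_left' (msk_length _ _)]

theorem enc_replicate (n m : ℕ) (X : ℕ × Finset ℕ) :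
    enc n (List.replicate m X) = (List.range m).flatMap fun _ => true :: msk n X.2 := by
  induction m with
  | zero => simp [enc]
  | succ m ih =>
    rw [List.replicate_succ', enc_append, ih, List.range_succ, List.flatMap_append]
    simp [enc]

theorem enc_flatMap {ι : Type} (n : ℕ) (l : List ι) (f : ι → List (ℕ × Finset ℕ)) :
    enc n (l.flatMap f) = l.flatMap fun x => enc n (f x) := by
  unfold enc
  rw [List.flatMap_assoc]

/-! ### The process -/

section

variable {Nd : Type} {ch : Nd → Bool → Nd} {e : Nd → ℕ} {cap : ℕ}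

theorem stepC_range (coin : ℕ → Bool → ℕ → Bool) (X0 : Nd) (i : ℕ) (L : List Nd) :
    stepC ch e cap coin i L =
      (List.range L.length).flatMap fun k => offsC ch e cap coin (i + k) (L.getD k X0) := by
  induction L generalizing i with
  | nil => simp [stepC]
  | cons X L ih =>
    rw [stepC, ih (i + 1), List.length_cons, List.range_succ_eq_map, List.flatMap_cons,
      List.flatMap_map]
    congr 1
    refine congrArg₂ _ ?_ rfl
    funext k
    rw [List.getD_cons_succ, Nat.succ_eq_add_one]
    congr 1
    omega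

theorem mem_stepC {coin : ℕ → Bool → ℕ → Bool} {i : ℕ} {L : List Nd} {Y : Nd}
    (h : Y ∈ stepC ch e cap coin i L) : ∃ X ∈ L, ∃ b, Y = ch X b := by
  induction L generalizing i with
  | nil => simp [stepC] at h
  | cons X L ih =>
    rw [stepC, List.mem_append, offsC, List.mem_append] at h
    rcases h with (h | h) | h
    · exact ⟨X, by simp, false, (List.mem_replicate.1 h).2⟩
    · exact ⟨X, by simp, true, (List.mem_replicate.1 h).2⟩
    · obtain ⟨X', h1, h2⟩ := ih h
      exact ⟨X', by simp [h1], h2⟩

theorem runC_length_le {coin : ℕ → ℕ → Bool → ℕ → Bool} {L : List Nd} (hL : L.length ≤ cap)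
    (j : ℕ) : (runC ch e cap coin L j).length ≤ cap := by
  induction j with
  | zero => exact hL
  | succ j ih =>
    rw [runC, List.length_take]
    exact min_le_left _ _

theorem runC_inv {coin : ℕ → ℕ → Bool → ℕ → Bool} {L : List Nd} {P : ℕ → Nd → Prop}
    (hch : ∀ j X b, P j X → P (j + 1) (ch X b)) (h0 : ∀ X ∈ L, P 0 X) (j : ℕ) :
    ∀ X ∈ runC ch e cap coin L j, P j X := by
  induction j with
  | zero => exact h0
  | succ j ih =>
    intro Y hY
    rw [runC] at hY
    obtain ⟨X, hX, b, rfl⟩ := mem_stepC (List.mem_of_mem_take hY)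
    exact hch j X b (ih X hX)

end

/-- The members of the population at level `j`. -/
theorem runC_chG {adj : ℕ → ℕ → Bool} {e : ℕ × Finset ℕ → ℕ} {cap : ℕ}
    {coin : ℕ → ℕ → Bool → ℕ → Bool} {n K : ℕ} (j : ℕ) :
    ∀ X ∈ runC (chG adj) e cap coin (List.replicate K (0, range n)) j,
      X.1 = j ∧ X.2 ⊆ range n := by
  refine runC_inv (P := fun (j : ℕ) (X : ℕ × Finset ℕ) => X.1 = j ∧ X.2 ⊆ range n) ?_ ?_ j
  · rintro j X b ⟨h1, h2⟩
    exact ⟨by rw [chG_fst, h1], (chG_subset _ _ _).trans h2⟩
  · intro X hX
    rw [(List.mem_replicate.1 hX).2]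
    exact ⟨rfl, subset_rfl⟩

end Pool.Agent.Lib.P7sG
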