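import Pool.Agent.Lib.P7sG.Mach
import Pool.Agent.Lib.Pa7c826.Fptas
import Pool.Agent.Lib.P8e91ed.PolyBin

/-!
The output string for the number `x * 2 ^ e / 2 ^ κ`, and the tree of the decisions on the left
vertices of a bipartite graph.
-/

set_option autoImplicit false

namespace Pool.Agent.Lib.P7sG

open Finset Pool.Agent.Lib.PolyTime Pool.Agent.Lib.Pa7c826 Pool.Agent.Lib.P8e91ed.PT

/-- The output string for `x * 2 ^ e / 2 ^ κ`. -/
def outN (κ e x : ℕ) : List Bool := un κ ++ false :: (List.replicate e false ++ Nat.bits x)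

theorem outVal_outN (κ e x : ℕ) : outVal (outN κ e x) = (x : ℚ) * 2 ^ e / 2 ^ κ := by
  unfold outN un
  rw [outVal_replicate]
  have h1 : outVal (false :: (List.replicate e false ++ Nat.bits x)) =
      (binVal (List.replicate e false ++ Nat.bits x) : ℚ) := rfl
  rw [h1, binVal_eq_bval, bval_append, bval_replicate_false, List.length_replicate, bval_bits]
  push_cast
  ring

theorem poly_outN {α : Type*} {D : α → Prop} {ctx : List (α → List Bool)} {κ e x : α → ℕ}
    (hκ : PolyN D ctx κ) (he : PolyN D ctx e) (hx : PolyN D ctx x) :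
    PolyC D ctx (fun a => outN (κ a) (e a) (x a)) :=
  PolyC.append hκ (PolyC.cons false ((PolyC.replicateFalse he).append (bin_bits (bin_ofN hx))))

theorem chG_eq (adj : ℕ → ℕ → Bool) (X : ℕ × Finset ℕ) (b : Bool) :
    chG adj X b = (X.1 + 1, if b then (X.2.erase X.1).filter (fun u => adj X.1 u = false)
      else X.2.erase X.1) := by
  cases b
  · exact Prod.ext rfl (by rw [chG_false]; rfl)
  · exact Prod.ext rfl (by rw [chG_true]; rfl)

end Pool.Agent.Lib.P7sG
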