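import Pool.Agent.Lib.P7sG.Mach
import Pool.Agent.Lib.P8e91ed.PolyBin

/-!
The size of the starting population and the bound of the populations.
-/

set_option autoImplicit false

namespace Pool.Agent.Lib.P7sG

open Pool.Agent.Lib.PolyTime Pool.Agent.Lib.Pa7c826

/-- The starting population has `2 ^ kapp n t` members. -/
def kapp (n t : ℕ) : ℕ := Nat.log 2 (32 * (n + 1) * (t * t * t)) + 1

/-- The bound of the populations. -/
def capp (n t : ℕ) : ℕ := 512 * (n + 1) * (t * t * t * t)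

theorem lt_two_pow_kapp (n t : ℕ) : 32 * (n + 1) * (t * t * t) < 2 ^ kapp n t :=
  Nat.lt_pow_succ_log_self (by norm_num) _

theorem two_pow_kapp_le {n t : ℕ} (ht : 1 ≤ t) :
    2 ^ kapp n t ≤ 2 * (32 * (n + 1) * (t * t * t)) := by
  have h0 : 32 * (n + 1) * (t * t * t) ≠ 0 := by positivity
  have h1 := Nat.pow_log_le_self 2 h0
  unfold kapp
  rw [pow_succ]
  omega

theorem two_pow_kapp_le_capp {n t : ℕ} (ht : 1 ≤ t) : 8 * t * 2 ^ kapp n t ≤ capp n t := by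
  have h1 := Nat.mul_le_mul_left (8 * t) (two_pow_kapp_le (n := n) ht)
  refine h1.trans (le_of_eq ?_)
  unfold capp
  ring

theorem two_pow_kapp_le_capp' {n t : ℕ} (ht : 1 ≤ t) : 2 ^ kapp n t ≤ capp n t := by
  refine le_trans ?_ (two_pow_kapp_le_capp (n := n) ht)
  exact Nat.le_mul_of_pos_left _ (by omega)

theorem alpha_sq_le {n t q : ℕ} (hq : 1 ≤ q) (ht : 1 ≤ t)
    (h : (100 : ℝ) * n ≤ q * Real.logb 2 t) :
    ((2 : ℝ) ^ ((5 : ℝ) * n / q + 1)) ^ 2 ≤ 4 * t := by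
  have hq0 : (0 : ℝ) < q := by exact_mod_cast hq
  have ht0 : (0 : ℝ) < t := by exact_mod_cast ht
  have hL : 0 ≤ Real.logb 2 t := Real.logb_nonneg (by norm_num) (by exact_mod_cast ht)
  have h1 : (5 : ℝ) * n / q ≤ Real.logb 2 t / 20 := by
    rw [div_le_iff₀ hq0]
    linarith
  have h2 : ((2 : ℝ) ^ ((5 : ℝ) * n / q + 1)) ^ 2 = (2 : ℝ) ^ (2 * ((5 : ℝ) * n / q + 1)) := by
    rw [← Real.rpow_natCast, ← Real.rpow_mul (by norm_num)]
    congr 1
    push_cast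
    ring
  rw [h2]
  calc (2 : ℝ) ^ (2 * ((5 : ℝ) * n / q + 1)) ≤ (2 : ℝ) ^ (Real.logb 2 t + 2) :=
        Real.rpow_le_rpow_of_exponent_le (by norm_num) (by linarith)
    _ = 4 * t := by
      rw [Real.rpow_add (by norm_num), Real.rpow_logb (by norm_num) (by norm_num) ht0]
      norm_num
      ring

/-- The parameters of the process. -/
theorem par_gww {n a t q : ℕ} (ha : a ≤ n) (hq : 1 ≤ q) (ht : 1 ≤ t)
    (h : (100 : ℝ) * n ≤ q * Real.logb 2 t) :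
    8 * (a : ℝ) * ((2 : ℝ) ^ ((5 : ℝ) * n / q + 1)) ^ 2 * (t : ℝ) ^ 2 ≤ (2 : ℝ) ^ kapp n t ∧
      2 * ((2 : ℝ) ^ ((5 : ℝ) * n / q + 1)) ^ 2 * (2 : ℝ) ^ kapp n t ≤ (capp n t : ℝ) := by
  have h1 := alpha_sq_le hq ht h
  have ht0 : (0 : ℝ) ≤ t := Nat.cast_nonneg _
  have ha0 : (0 : ℝ) ≤ a := Nat.cast_nonneg _
  have han : (a : ℝ) ≤ n := by exact_mod_cast ha
  set A : ℝ := ((2 : ℝ) ^ ((5 : ℝ) * n / q + 1)) ^ 2 with hA
  have hA0 : 0 ≤ A := sq_nonneg _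
  constructor
  · have h2 : (32 : ℝ) * (n + 1) * (t * t * t) ≤ (2 : ℝ) ^ kapp n t := by
      exact_mod_cast (lt_two_pow_kapp n t).le
    have h3 : 8 * (a : ℝ) * A * (t : ℝ) ^ 2 ≤ 8 * (n : ℝ) * (4 * (t : ℝ)) * (t : ℝ) ^ 2 := by
      gcongr
    have h4 : 8 * (n : ℝ) * (4 * (t : ℝ)) * (t : ℝ) ^ 2 ≤ 32 * ((n : ℝ) + 1) * (t * t * t) := by
      have h5 : (0 : ℝ) ≤ t * t * t := by positivity
      nlinarith
    exact (h3.trans h4).trans h2
  · have h2 : 8 * (t : ℝ) * (2 : ℝ) ^ kapp n t ≤ (capp n t : ℝ) := by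
      exact_mod_cast two_pow_kapp_le_capp (n := n) ht
    have h3 : 2 * A * (2 : ℝ) ^ kapp n t ≤ 2 * (4 * (t : ℝ)) * (2 : ℝ) ^ kapp n t := by
      gcongr
    have h4 : 2 * (4 * (t : ℝ)) * (2 : ℝ) ^ kapp n t = 8 * (t : ℝ) * (2 : ℝ) ^ kapp n t := by
      ring
    rw [h4] at h3
    exact h3.trans h2

section

variable {α : Type*} {D : α → Prop} {ctx : List (α → List Bool)} {n t : α → ℕ}

theorem poly_kapp (hn : PolyN D ctx n) (ht : PolyN D ctx t) :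
    PolyN D ctx (fun a => kapp (n a) (t a)) :=
  (Pool.Agent.Lib.P8e91ed.PT.n_log (((PolyN.const 32).mul hn.succ).mul ((ht.mul ht).mul ht))).succ

theorem poly_capp (hn : PolyN D ctx n) (ht : PolyN D ctx t) :
    PolyN D ctx (fun a => capp (n a) (t a)) :=
  ((PolyN.const 512).mul hn.succ).mul (((ht.mul ht).mul ht).mul ht)

/-- The size of the starting population. -/
theorem poly_two_pow_kapp (hn : PolyN D ctx n) (ht : PolyN D ctx t) (h1 : ∀ a, D a → 1 ≤ t a) :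
    PolyN D ctx (fun a => 2 ^ kapp (n a) (t a)) :=
  (PolyN.minPow (poly_capp hn ht) (poly_kapp hn ht)).congr fun a ha =>
    min_eq_right (two_pow_kapp_le_capp' (h1 a ha))

end

end Pool.Agent.Lib.P7sG
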