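import Pool.Agent.Lib.P7sG.Step

set_option autoImplicit false

namespace Pool.Agent.Lib.P7sG

open Finset

variable {Nd : Type} {ch : Nd → Bool → Nd} {e : Nd → ℕ} {Z : Nd → ℝ}

theorem mem_stepL {coin : ℕ → Bool → ℕ → Bool} {L : List Nd} {i : ℕ} {Y : Nd}
    (h : Y ∈ stepL ch e coin i L) : ∃ X ∈ L, ∃ b, Y = ch X b := by
  induction L generalizing i with
  | nil => simp [stepL] at h
  | cons X L ih =>
    rw [stepL, List.mem_append] at h
    rcases h with h | h
    · rw [offs, List.mem_append] at h
      rcases h with h | h
      · exact ⟨X, by simp, false, List.eq_of_mem_replicate h⟩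
      · exact ⟨X, by simp, true, List.eq_of_mem_replicate h⟩
    · obtain ⟨X', hX', b, hb⟩ := ih h
      exact ⟨X', by simp [hX'], b, hb⟩

theorem runF_congr {cap : ℕ} {coin coin' : ℕ → ℕ → Bool → ℕ → Bool} {L : List Nd} {j : ℕ}
    (h : ∀ l, l < j → coin l = coin' l) :
    runF ch e cap coin L j = runF ch e cap coin' L j := by
  induction j with
  | zero => rfl
  | succ j ih =>
    rw [runF, runF, ih (fun l hl => h l (by omega)), h j (by omega)]

variable {ok : ℕ → Nd → Prop} {a dm : ℕ} {α : ℝ}

theorem runF_ok (h : Good ch e Z ok a dm α) {cap : ℕ} {coin : ℕ → ℕ → Bool → ℕ → Bool}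
    {L : List Nd} (hL : ∀ X ∈ L, ok 0 X) {j : ℕ} (hj : j ≤ a) :
    ((runF ch e cap coin L j).length ≤ cap → ∀ X ∈ runF ch e cap coin L j, ok j X) ∧
      ∃ j', ∀ X ∈ runF ch e cap coin L j, ok j' X := by
  induction j with
  | zero => exact ⟨fun _ => hL, 0, hL⟩
  | succ j ih =>
    obtain ⟨h1, j', h2⟩ := ih (by omega)
    rw [runF]
    by_cases hc : (runF ch e cap coin L j).length ≤ cap
    · rw [if_pos hc]
      have h3 : ∀ X ∈ stepL ch e (coin j) 0 (runF ch e cap coin L j), ok (j + 1) X := by
        intro Y hY
        obtain ⟨X, hX, b, rfl⟩ := mem_stepL hY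
        exact h.child j X b (by omega) (h1 hc X hX)
      exact ⟨fun _ => h3, j + 1, h3⟩
    · rw [if_neg hc]
      exact ⟨fun hh => absurd hh hc, j', h2⟩

theorem M_nonneg (h : Good ch e Z ok a dm α) {L : List Nd} {j : ℕ} (hL : ∀ X ∈ L, ok j X) :
    0 ≤ M e Z L := by
  induction L with
  | nil => simp [M_nil]
  | cons X L ih =>
    rw [M_cons]
    have h1 := h.pos j X (hL X (by simp))
    have h2 := ih fun Y hY => hL Y (by simp [hY])
    positivity

theorem alpha_M_nonneg (h : Good ch e Z ok a dm α) {L : List Nd} {j : ℕ}
    (hL : ∀ X ∈ L, ok j X) : 0 ≤ α * M e Z L := by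
  rcases L with _ | ⟨X, L⟩
  · simp [M_nil]
  · exact mul_nonneg (h.alpha_nonneg (hL X (by simp))) (M_nonneg h hL)

theorem length_le (h : Good ch e Z ok a dm α) {L : List Nd} {j : ℕ} (hL : ∀ X ∈ L, ok j X) :
    (L.length : ℝ) ≤ α * M e Z L := by
  induction L with
  | nil => simp [M_nil]
  | cons X L ih =>
    rw [M_cons, mul_add]
    have h1 := h.low j X (hL X (by simp))
    have h2 := ih fun Y hY => hL Y (by simp [hY])
    have h3 : (1 : ℝ) ≤ α * (Z X / 2 ^ e X) := by
      rw [← mul_div_assoc, le_div_iff₀ (by positivity), one_mul]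
      exact h1
    push_cast [List.length_cons]
    linarith

theorem M_leaf (h : Good ch e Z ok a dm α) {L : List Nd} (hL : ∀ X ∈ L, ok a X) :
    M e Z L = L.length := by
  induction L with
  | nil => simp [M_nil]
  | cons X L ih =>
    rw [M_cons, ih fun Y hY => hL Y (by simp [hY]), h.leaf X (hL X (by simp))]
    rw [div_self (by positivity)]
    push_cast [List.length_cons]
    ring

section avg

variable (h : Good ch e Z ok a dm α) {cap : ℕ} {L : List Nd} (hL : ∀ X ∈ L, ok 0 X)

include h hL

theorem runF_update {j : ℕ} (hj : j < a) (ω : Fin a → Lev cap dm) (x : Lev cap dm) :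
    runF ch e cap (coins (Function.update ω ⟨j, hj⟩ x)) L (j + 1) =
      if (runF ch e cap (coins ω) L j).length ≤ cap then
        stepL ch e (coinL x) 0 (runF ch e cap (coins ω) L j)
      else runF ch e cap (coins ω) L j := by
  have h1 : runF ch e cap (coins (Function.update ω ⟨j, hj⟩ x)) L j =
      runF ch e cap (coins ω) L j := by
    refine runF_congr fun l hl => ?_
    have hla : l < a := by omega
    have : (⟨l, hla⟩ : Fin a) ≠ ⟨j, hj⟩ := by
      intro hh
      have := congrArg Fin.val hh
      simp at this
      omega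
    simp [coins, hla, Function.update_of_ne this]
  have h2 : coins (Function.update ω ⟨j, hj⟩ x) j = coinL x := by
    simp [coins, hj]
  rw [runF, h1, h2]

theorem av_runF {j : ℕ} (hj : j ≤ a) :
    av (fun ω : Fin a → Lev cap dm => M e Z (runF ch e cap (coins ω) L j)) = M e Z L := by
  induction j with
  | zero => simp only [runF]; exact av_const _
  | succ j ih =>
    rw [av_update (⟨j, by omega⟩ : Fin a)]
    rw [← ih (by omega)]
    congr 1
    funext ω
    simp only [runF_update h hL (by omega : j < a)]
    by_cases hc : (runF ch e cap (coins ω) L j).length ≤ cap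
    · simp only [hc, if_true]
      exact av_step h (by omega) _ ((runF_ok h hL (by omega)).1 hc) hc
    · simp only [hc, if_false]
      exact av_const _

theorem av_runF_sq {j : ℕ} (hj : j ≤ a) :
    av (fun ω : Fin a → Lev cap dm => (M e Z (runF ch e cap (coins ω) L j)) ^ 2) ≤
      (M e Z L) ^ 2 + j * (α * M e Z L) := by
  induction j with
  | zero => simp only [runF]; rw [av_const]; simp
  | succ j ih =>
    rw [av_update (⟨j, by omega⟩ : Fin a)]
    have h1 : av (fun ω : Fin a → Lev cap dm => av fun x : Lev cap dm =>
        (M e Z (runF ch e cap (coins (Function.update ω ⟨j, by omega⟩ x)) L (j + 1))) ^ 2) ≤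
        av (fun ω : Fin a → Lev cap dm => (M e Z (runF ch e cap (coins ω) L j)) ^ 2 +
          α * M e Z (runF ch e cap (coins ω) L j)) := by
      refine av_mono fun ω => ?_
      simp only [runF_update h hL (by omega : j < a)]
      by_cases hc : (runF ch e cap (coins ω) L j).length ≤ cap
      · simp only [hc, if_true]
        exact av_step_sq h (by omega) _ ((runF_ok h hL (by omega)).1 hc) hc
      · simp only [hc, if_false]
        rw [av_const]
        obtain ⟨j', hj'⟩ := (runF_ok h (cap := cap) (coin := coins ω) hL
          (by omega : j ≤ a)).2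
        have := alpha_M_nonneg h hj'
        linarith
    refine h1.trans ?_
    rw [av_add, av_mul_left, av_runF h hL (by omega)]
    have := ih (by omega)
    push_cast
    linarith

/-- variance of the final weighted size -/
theorem av_var :
    av (fun ω : Fin a → Lev cap dm =>
      (M e Z (runF ch e cap (coins ω) L a) - M e Z L) ^ 2) ≤ a * (α * M e Z L) := by
  have h1 := av_runF h (cap := cap) hL (le_refl a)
  have h2 := av_runF_sq h (cap := cap) hL (le_refl a)
  have e1 : (fun ω : Fin a → Lev cap dm =>
      (M e Z (runF ch e cap (coins ω) L a) - M e Z L) ^ 2) =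
      fun ω => ((M e Z (runF ch e cap (coins ω) L a)) ^ 2 +
        (-(2 * M e Z L)) * M e Z (runF ch e cap (coins ω) L a)) + (M e Z L) ^ 2 := by
    funext ω; ring
  rw [e1, av_add, av_add, av_mul_left, h1, av_const]
  nlinarith

end avg

/-- Chebyshev -/
theorem cheb {Ω : Type} [Fintype Ω] (F : Ω → ℝ) (δ V : ℝ) (hδ : 0 < δ)
    (hV : av (fun x => F x ^ 2) ≤ V) (P : Ω → Prop) [DecidablePred P]
    (hP : ∀ x, ¬ P x → δ ≤ |F x|) :
    av (fun x => if P x then (1 : ℝ) else 0) ≥ 1 - V / δ ^ 2 ∨ IsEmpty Ω := by
  rcases isEmpty_or_nonempty Ω with hE | hE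
  · exact Or.inr hE
  left
  have h1 : ∀ x, 1 - (F x ^ 2) / δ ^ 2 ≤ (if P x then (1 : ℝ) else 0) := by
    intro x
    by_cases hx : P x
    · rw [if_pos hx]
      have : 0 ≤ F x ^ 2 / δ ^ 2 := by positivity
      linarith
    · rw [if_neg hx]
      have h2 : δ ^ 2 ≤ F x ^ 2 := by
        rw [← sq_abs (F x)]
        exact pow_le_pow_left₀ hδ.le (hP x hx) 2
      have : 1 ≤ F x ^ 2 / δ ^ 2 := by
        rw [le_div_iff₀ (by positivity)]; linarith
      linarith
  have h3 := av_mono h1
  rw [av_sub, av_const] at h3
  have e1 : av (fun x => F x ^ 2 / δ ^ 2) = av (fun x => F x ^ 2) / δ ^ 2 := by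
    have := av_mul_left (1 / δ ^ 2) (fun x => F x ^ 2)
    simp only [one_div] at this
    rw [div_eq_inv_mul, ← this]
    congr 1
    funext x
    rw [div_eq_inv_mul]
  rw [e1] at h3
  have : av (fun x => F x ^ 2) / δ ^ 2 ≤ V / δ ^ 2 :=
    div_le_div_of_nonneg_right hV (by positivity)
  linarith

theorem stepC_eq {cap : ℕ} {coin : ℕ → Bool → ℕ → Bool} {L : List Nd} {i : ℕ}
    (h : (stepL ch e coin i L).length ≤ cap) :
    stepC ch e cap coin i L = stepL ch e coin i L := by
  induction L generalizing i with
  | nil => rfl
  | cons X L ih =>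
    rw [stepL, List.length_append, offs, List.length_append, List.length_replicate,
      List.length_replicate] at h
    rw [stepC, stepL, ih (by omega), offsC, offs, min_eq_right (by omega), min_eq_right (by omega)]

/-- a stopped process never exceeded the cap if it does not exceed it at the end -/
theorem runC_eq {cap : ℕ} {coin : ℕ → ℕ → Bool → ℕ → Bool} {L : List Nd} {n : ℕ}
    (h : (runF ch e cap coin L n).length ≤ cap) :
    runC ch e cap coin L n = runF ch e cap coin L n := by
  induction n with
  | zero => rfl
  | succ n ih =>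
    have h1 : (runF ch e cap coin L n).length ≤ cap := by
      by_contra hc
      rw [runF, if_neg hc] at h
      exact hc h
    rw [runC, ih h1]
    rw [runF, if_pos h1] at h ⊢
    rw [stepC_eq h]
    exact List.take_of_length_le h

/-- The result of a good run. -/
theorem good_run (h : Good ch e Z ok a dm α) {cap K : ℕ} {root : Nd} (hroot : ok 0 root)
    {t : ℝ} (ht : 1 ≤ t) (hcap : 2 * α ^ 2 * K ≤ cap) (coin : ℕ → ℕ → Bool → ℕ → Bool)
    (hgood : |M e Z (runF ch e cap coin (List.replicate K root) a) -
      M e Z (List.replicate K root)| ≤ M e Z (List.replicate K root) / t) :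
    |((runC ch e cap coin (List.replicate K root) a).length : ℝ) * 2 ^ e root -
      K * Z root| ≤ K * Z root / t := by
  have hL : ∀ X ∈ List.replicate K root, ok 0 X := by
    intro X hX
    rw [List.eq_of_mem_replicate hX]
    exact hroot
  have hM0 : M e Z (List.replicate K root) = K * (Z root / 2 ^ e root) := M_replicate K root
  have hα : 0 ≤ α := h.alpha_nonneg hroot
  have hZ := h.pos 0 root hroot
  obtain ⟨j', hj'⟩ := (runF_ok h (cap := cap) (coin := coin) hL (le_refl a)).2
  have h1 := length_le h hj'
  have h2 : M e Z (runF ch e cap coin (List.replicate K root) a) ≤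
      2 * M e Z (List.replicate K root) := by
    have h3 := (abs_le.1 hgood).2
    have h4 : M e Z (List.replicate K root) / t ≤ M e Z (List.replicate K root) :=
      div_le_self (M_nonneg h hL) ht
    linarith
  have h5 : M e Z (List.replicate K root) ≤ α * K := by
    rw [hM0]
    have : Z root / 2 ^ e root ≤ α := by
      rw [div_le_iff₀ (by positivity)]
      exact h.up 0 root hroot
    have hK : (0 : ℝ) ≤ K := Nat.cast_nonneg _
    nlinarith
  have h6 : (runF ch e cap coin (List.replicate K root) a).length ≤ cap := by
    have : ((runF ch e cap coin (List.replicate K root) a).length : ℝ) ≤ cap := by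
      refine le_trans h1 (le_trans ?_ hcap)
      have : α * M e Z (runF ch e cap coin (List.replicate K root) a) ≤ α * (2 * (α * K)) :=
        mul_le_mul_of_nonneg_left (by linarith) hα
      nlinarith
    exact_mod_cast this
  rw [runC_eq h6]
  have h7 := M_leaf h ((runF_ok h hL (le_refl a)).1 h6)
  rw [h7, hM0] at hgood
  have h8 : (0 : ℝ) < 2 ^ e root := by positivity
  have e1 : ((runF ch e cap coin (List.replicate K root) a).length : ℝ) * 2 ^ e root -
      K * Z root = (((runF ch e cap coin (List.replicate K root) a).length : ℝ) -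
        K * (Z root / 2 ^ e root)) * 2 ^ e root := by
    field_simp
  rw [e1, abs_mul, abs_of_pos h8]
  calc _ ≤ (K * (Z root / 2 ^ e root) / t) * 2 ^ e root :=
        mul_le_mul_of_nonneg_right hgood h8.le
    _ = K * Z root / t := by
        field_simp

open Classical in
/-- Fraction of good runs. -/
theorem av_good (h : Good ch e Z ok a dm α) {cap K : ℕ} {root : Nd} (hroot : ok 0 root)
    {t : ℝ} (ht : 1 ≤ t) (hcap : 2 * α ^ 2 * K ≤ cap) (hK : 0 < K) :
    1 - a * α ^ 2 * t ^ 2 / K ≤
      av fun ω : Fin a → Lev cap dm =>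
        if |((runC ch e cap (coins ω) (List.replicate K root) a).length : ℝ) * 2 ^ e root -
          K * Z root| ≤ K * Z root / t then (1 : ℝ) else 0 := by
  have hL : ∀ X ∈ List.replicate K root, ok 0 X := by
    intro X hX
    rw [List.eq_of_mem_replicate hX]
    exact hroot
  have hM0 : M e Z (List.replicate K root) = K * (Z root / 2 ^ e root) := M_replicate K root
  have hZ := h.pos 0 root hroot
  have hKr : (0 : ℝ) < K := by exact_mod_cast hK
  have hMpos : 0 < M e Z (List.replicate K root) := by rw [hM0]; positivity
  have hα : 0 ≤ α := h.alpha_nonneg hroot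
  have ht0 : 0 < t := by linarith
  have hv := av_var h (cap := cap) hL
  have hc := cheb (fun ω : Fin a → Lev cap dm =>
      M e Z (runF ch e cap (coins ω) (List.replicate K root) a) -
        M e Z (List.replicate K root)) (M e Z (List.replicate K root) / t)
      (a * (α * M e Z (List.replicate K root))) (by positivity) hv
      (fun ω => |M e Z (runF ch e cap (coins ω) (List.replicate K root) a) -
        M e Z (List.replicate K root)| ≤ M e Z (List.replicate K root) / t)
      (fun ω hω => (not_le.1 hω).le)
  rcases hc with hc | hc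
  · have h1 : a * (α * M e Z (List.replicate K root)) / (M e Z (List.replicate K root) / t) ^ 2 ≤
        a * α ^ 2 * t ^ 2 / K := by
      have h2 : a * (α * M e Z (List.replicate K root)) / (M e Z (List.replicate K root) / t) ^ 2 =
          a * α * t ^ 2 / M e Z (List.replicate K root) := by
        field_simp
      rw [h2, div_le_div_iff₀ hMpos hKr]
      have h3 : (K : ℝ) ≤ α * M e Z (List.replicate K root) := by
        have := length_le h hL
        simpa using this
      have h4 : 0 ≤ a * α * t ^ 2 := by positivity
      calc a * α * t ^ 2 * K ≤ a * α * t ^ 2 * (α * M e Z (List.replicate K root)) :=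
            mul_le_mul_of_nonneg_left h3 h4
        _ = a * α ^ 2 * t ^ 2 * M e Z (List.replicate K root) := by ring
    refine le_trans (by linarith) (le_trans hc ?_)
    refine av_mono fun ω => ?_
    by_cases hω : |M e Z (runF ch e cap (coins ω) (List.replicate K root) a) -
        M e Z (List.replicate K root)| ≤ M e Z (List.replicate K root) / t
    · rw [if_pos hω, if_pos (good_run h hroot ht hcap _ hω)]
    · rw [if_neg hω]
      split_ifs <;> norm_num
  · exact (hc.false (fun _ _ _ => true)).elim

end Pool.Agent.Lib.P7sG
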