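import Pool.Agent.Lib.P7sG.Av

set_option autoImplicit false

namespace Pool.Agent.Lib.P7sG

open Finset

/-! ### One particle -/

/-- probability that the first `d` bits are all `true` -/
theorem av_coin (dm d : ℕ) (hd : d ≤ dm) :
    av (fun w : Fin dm → Bool => if (∀ l : Fin dm, l.val < d → w l = true) then (1 : ℝ) else 0) =
      1 / 2 ^ d := by
  have e1 : (fun w : Fin dm → Bool =>
      if (∀ l : Fin dm, l.val < d → w l = true) then (1 : ℝ) else 0) =
      fun w => ∏ l : Fin dm, (fun (l : Fin dm) (x : Bool) =>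
        if l.val < d then (if x = true then (1 : ℝ) else 0) else 1) l (w l) := by
    funext w
    by_cases h : ∀ l : Fin dm, l.val < d → w l = true
    · rw [if_pos h]
      symm
      refine Finset.prod_eq_one fun l _ => ?_
      by_cases hl : l.val < d
      · simp [hl, h l hl]
      · simp [hl]
    · rw [if_neg h]
      push Not at h
      obtain ⟨l, hl, hw⟩ := h
      symm
      refine Finset.prod_eq_zero (mem_univ l) ?_
      simp [hl, hw]
  rw [e1]
  refine (av_pi_prod (fun (l : Fin dm) (x : Bool) =>
    if l.val < d then (if x = true then (1 : ℝ) else 0) else 1)).trans ?_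
  have e2 : ∀ l : Fin dm, av (fun x : Bool =>
      if l.val < d then (if x = true then (1 : ℝ) else 0) else 1) = if l.val < d then 1 / 2 else 1 := by
    intro l
    by_cases hl : l.val < d
    · simp [hl, av]
    · simp [hl, av]
  simp only [e2]
  rw [Finset.prod_ite, Finset.prod_const_one, mul_one, Finset.prod_const]
  have e3 : (univ.filter fun l : Fin dm => l.val < d).card = d := by
    have : (univ.filter fun l : Fin dm => l.val < d) =
        (Finset.univ : Finset (Fin d)).map (Fin.castLEEmb hd) := by
      ext l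
      simp only [mem_filter, mem_univ, true_and, Finset.mem_map]
      constructor
      · intro h
        exact ⟨⟨l.val, h⟩, by ext; simp⟩
      · rintro ⟨i, hi⟩
        rw [← hi]
        simp
    rw [this]
    simp
  rw [e3]
  simp

/-- value of the copies of one child -/
noncomputable def val (e0 e1 : ℕ) (z : ℝ) (dm : ℕ) (w : Fin dm → Bool) : ℝ :=
  (cp e0 e1 (fun d => decide (∀ l : Fin dm, l.val < d → w l = true)) : ℝ) * (z / 2 ^ e1)

theorem av_val (e0 e1 : ℕ) (z : ℝ) (dm : ℕ) (h : e0 ≤ e1 + dm) :
    av (val e0 e1 z dm) = z / 2 ^ e0 := by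
  by_cases h01 : e0 ≤ e1
  · have : val e0 e1 z dm = fun _ => z / 2 ^ e0 := by
      funext w
      unfold val cp
      rw [if_pos h01]
      push_cast
      have : (2 : ℝ) ^ e1 = 2 ^ (e1 - e0) * 2 ^ e0 := by
        rw [← pow_add]; congr 1; omega
      rw [this]
      field_simp
    rw [this, av_const]
  · have : val e0 e1 z dm = fun w => (z / 2 ^ e1) *
        (if (∀ l : Fin dm, l.val < e0 - e1 → w l = true) then (1 : ℝ) else 0) := by
      funext w
      unfold val cp
      rw [if_neg h01]
      simp only [decide_eq_true_eq]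
      split_ifs
      · push_cast; ring
      · push_cast; ring
    rw [this, av_mul_left, av_coin _ _ (by omega)]
    have : (2 : ℝ) ^ e0 = 2 ^ (e0 - e1) * 2 ^ e1 := by
      rw [← pow_add]; congr 1; omega
    rw [this]
    field_simp

theorem av_val_sq (e0 e1 : ℕ) (z : ℝ) (dm : ℕ) (h : e0 ≤ e1 + dm) (hz : 0 ≤ z) (α : ℝ)
    (hα : z ≤ α * 2 ^ e1) :
    av (fun w => val e0 e1 z dm w ^ 2) - (av (val e0 e1 z dm)) ^ 2 ≤ α * (z / 2 ^ e0) := by
  have hα0 : 0 ≤ α := by
    by_contra hneg
    push Not at hneg
    have : α * 2 ^ e1 < 0 := mul_neg_of_neg_of_pos hneg (by positivity)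
    linarith
  by_cases h01 : e0 ≤ e1
  · have : val e0 e1 z dm = fun _ => z / 2 ^ e0 := by
      funext w
      unfold val cp
      rw [if_pos h01]
      push_cast
      have : (2 : ℝ) ^ e1 = 2 ^ (e1 - e0) * 2 ^ e0 := by
        rw [← pow_add]; congr 1; omega
      rw [this]
      field_simp
    rw [this, av_const, av_const]
    have : 0 ≤ α * (z / 2 ^ e0) := by positivity
    linarith
  · have hv : ∀ w, val e0 e1 z dm w ^ 2 = (z / 2 ^ e1) * val e0 e1 z dm w := by
      intro w
      unfold val cp
      rw [if_neg h01]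
      simp only [decide_eq_true_eq]
      split_ifs
      · push_cast; ring
      · push_cast; ring
    have e1' : av (fun w => val e0 e1 z dm w ^ 2) = (z / 2 ^ e1) * (z / 2 ^ e0) := by
      simp only [hv]
      rw [av_mul_left, av_val _ _ _ _ h]
    rw [e1']
    have h1 : z / 2 ^ e1 ≤ α := by
      rw [div_le_iff₀ (by positivity)]
      exact hα
    have h2 : (z / 2 ^ e1) * (z / 2 ^ e0) ≤ α * (z / 2 ^ e0) :=
      mul_le_mul_of_nonneg_right h1 (by positivity)
    nlinarith [sq_nonneg (av (val e0 e1 z dm))]

/-! ### One level -/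

variable {Nd : Type} {ch : Nd → Bool → Nd} {e : Nd → ℕ} {Z : Nd → ℝ}

theorem M_nil : M e Z [] = 0 := rfl

theorem M_cons (X : Nd) (L : List Nd) : M e Z (X :: L) = Z X / 2 ^ e X + M e Z L := by
  simp [M]

theorem M_append (L L' : List Nd) : M e Z (L ++ L') = M e Z L + M e Z L' := by
  simp [M]

theorem M_replicate (k : ℕ) (X : Nd) : M e Z (List.replicate k X) = k * (Z X / 2 ^ e X) := by
  simp [M]

/-- contribution of the child `b` of the particle `i` -/
noncomputable def term (ch : Nd → Bool → Nd) (e : Nd → ℕ) (Z : Nd → ℝ) {dm : ℕ} (L : List Nd)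
    (i : ℕ) (b : Bool) (w : Fin dm → Bool) : ℝ :=
  match L[i]? with
  | none => 0
  | some X => val (e X) (e (ch X b)) (Z (ch X b)) dm w

theorem M_stepL_aux {cap dm : ℕ} (ω : Lev cap dm) (L : List Nd) (i0 : ℕ)
    (hL : i0 + L.length ≤ cap) :
    M e Z (stepL ch e (coinL ω) i0 L) =
      ∑ k : Fin L.length, ∑ b : Bool,
        term ch e Z L k.val b (ω (⟨i0 + k.val, by omega⟩, b)) := by
  induction L generalizing i0 with
  | nil => simp [stepL, M_nil]
  | cons X L ih =>
    have hL' : i0 + (L.length + 1) ≤ cap := by simpa using hL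
    rw [stepL, M_append, ih (i0 + 1) (by omega)]
    refine Eq.symm ((Fin.sum_univ_succ (n := L.length) (fun k : Fin (L.length + 1) =>
      ∑ b : Bool, term ch e Z (X :: L) k.val b (ω (⟨i0 + k.val, by omega⟩, b)))).trans ?_)
    symm
    congr 1
    · unfold offs
      rw [M_append, M_replicate, M_replicate, Fintype.sum_bool]
      have hi : i0 < cap := by simp only [List.length_cons] at hL; omega
      have hc : ∀ b, coinL ω i0 b =
          fun d => decide (∀ l : Fin dm, l.val < d → ω (⟨i0, hi⟩, b) l = true) := by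
        intro b
        funext d
        unfold coinL
        simp [hi]
      rw [hc, hc]
      simp only [term, val, Fin.val_zero, List.getElem?_cons_zero, add_zero]
      ring
    · refine Finset.sum_congr rfl fun k _ => Finset.sum_congr rfl fun b _ => ?_
      simp only [term, Fin.val_succ, List.getElem?_cons_succ]
      have : i0 + 1 + k.val = i0 + (k.val + 1) := by omega
      simp only [this]

theorem M_stepL {cap dm : ℕ} (ω : Lev cap dm) (L : List Nd) (hL : L.length ≤ cap) :
    M e Z (stepL ch e (coinL ω) 0 L) =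
      ∑ p : Fin cap × Bool, term ch e Z L p.1.val p.2 (ω p) := by
  rw [M_stepL_aux ω L 0 (by omega), Fintype.sum_prod_type]
  have h1 : ∀ i : Fin cap, ¬ i.val < L.length →
      ∑ b : Bool, term ch e Z L i.val b (ω (i, b)) = 0 := by
    intro i hi
    refine Finset.sum_eq_zero fun b _ => ?_
    have : L[i.val]? = none := List.getElem?_eq_none (by omega)
    simp [term, this]
  rw [← Finset.sum_filter_add_sum_filter_not univ (fun i : Fin cap => i.val < L.length)]
  rw [Finset.sum_eq_zero (s := univ.filter fun i : Fin cap => ¬ i.val < L.length)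
    (fun i hi => h1 i (by simpa using hi)), add_zero]
  have e3 : (univ.filter fun i : Fin cap => i.val < L.length) =
      (Finset.univ : Finset (Fin L.length)).map (Fin.castLEEmb hL) := by
    ext l
    simp only [mem_filter, mem_univ, true_and, Finset.mem_map]
    constructor
    · intro h
      exact ⟨⟨l.val, h⟩, by ext; simp⟩
    · rintro ⟨i, hi⟩
      rw [← hi]
      simp
  rw [e3, Finset.sum_map]
  refine Finset.sum_congr rfl fun k _ => Finset.sum_congr rfl fun b _ => ?_
  simp only [Fin.castLEEmb_apply, Fin.val_castLE]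
  congr 2
  ext <;> simp

/-- sum over the list positions below `cap` -/
theorem sum_pos_eq {cap : ℕ} (L : List Nd) (hL : L.length ≤ cap) (g : Nd → ℝ) :
    ∑ i : Fin cap, (match L[i.val]? with | none => 0 | some X => g X) = (L.map g).sum := by
  induction L generalizing cap with
  | nil => simp
  | cons X L ih =>
    obtain ⟨c, rfl⟩ : ∃ c, cap = c + 1 := ⟨cap - 1, by simp only [List.length_cons] at hL; omega⟩
    rw [Fin.sum_univ_succ]
    simp only [Fin.val_zero, List.getElem?_cons_zero, List.map_cons, List.sum_cons, Fin.val_succ,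
      List.getElem?_cons_succ]
    rw [ih (by simp only [List.length_cons] at hL; omega)]

variable {ok : ℕ → Nd → Prop} {a dm : ℕ} {α : ℝ}

theorem Good.alpha_nonneg (h : Good ch e Z ok a dm α) {j : ℕ} {X : Nd} (hX : ok j X) : 0 ≤ α := by
  have h1 := h.low j X hX
  have h2 := h.pos j X hX
  by_contra hn
  push Not at hn
  have : α * Z X < 0 := mul_neg_of_neg_of_pos hn h2
  have : (0 : ℝ) < 2 ^ e X := by positivity
  linarith

/-- the mean weighted size is preserved -/
theorem av_step (h : Good ch e Z ok a dm α) {j cap : ℕ} (hj : j < a) (L : List Nd)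
    (hok : ∀ X ∈ L, ok j X) (hL : L.length ≤ cap) :
    av (fun ω : Lev cap dm => M e Z (stepL ch e (coinL ω) 0 L)) = M e Z L := by
  simp only [M_stepL _ L hL]
  rw [av_sum_pi (fun (p : Fin cap × Bool) (w : Fin dm → Bool) => term ch e Z L p.1.val p.2 w)]
  rw [Fintype.sum_prod_type]
  rw [M, ← sum_pos_eq L hL]
  refine Finset.sum_congr rfl fun i _ => ?_
  rw [Fintype.sum_bool]
  rcases hX : L[i.val]? with _ | X
  · simp [term, hX, av]
  · have hmem : X ∈ L := List.mem_of_getElem? hX
    have e1 : ∀ b, av (fun w : Fin dm → Bool => term ch e Z L i.val b w) =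
        Z (ch X b) / 2 ^ e X := by
      intro b
      simp only [term, hX]
      exact av_val _ _ _ _ (h.drop j X b hj (hok X hmem))
    have e2 := h.split j X hj (hok X hmem)
    rw [e1, e1]
    change Z (ch X true) / 2 ^ e X + Z (ch X false) / 2 ^ e X = Z X / 2 ^ e X
    rw [e2]
    ring

theorem av_step_sq (h : Good ch e Z ok a dm α) {j cap : ℕ} (hj : j < a) (L : List Nd)
    (hok : ∀ X ∈ L, ok j X) (hL : L.length ≤ cap) :
    av (fun ω : Lev cap dm => (M e Z (stepL ch e (coinL ω) 0 L)) ^ 2) ≤
      (M e Z L) ^ 2 + α * M e Z L := by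
  have hm := av_step h hj L hok hL
  simp only [M_stepL _ L hL] at hm ⊢
  rw [av_sum_pi (fun (p : Fin cap × Bool) (w : Fin dm → Bool) => term ch e Z L p.1.val p.2 w)] at hm
  rw [av_sq_pi (fun (p : Fin cap × Bool) (w : Fin dm → Bool) => term ch e Z L p.1.val p.2 w), hm]
  gcongr
  rw [Fintype.sum_prod_type]
  rw [M, ← sum_pos_eq L hL, Finset.mul_sum]
  refine Finset.sum_le_sum fun i _ => ?_
  rw [Fintype.sum_bool]
  rcases hX : L[i.val]? with _ | X
  · simp [term, hX, av]
  · have hmem : X ∈ L := List.mem_of_getElem? hX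
    have hokX := hok X hmem
    have e1 : ∀ b, av (fun w : Fin dm → Bool => term ch e Z L i.val b w ^ 2) -
        (av (fun w : Fin dm → Bool => term ch e Z L i.val b w)) ^ 2 ≤
        α * (Z (ch X b) / 2 ^ e X) := by
      intro b
      simp only [term, hX]
      exact av_val_sq _ _ _ _ (h.drop j X b hj hokX) (h.pos _ _ (h.child j X b hj hokX)).le α
        (h.up _ _ (h.child j X b hj hokX))
    have h0 := e1 true
    have h1 := e1 false
    have e2 := h.split j X hj hokX
    change (av (fun w : Fin dm → Bool => term ch e Z L i.val true w ^ 2) -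
        (av (fun w : Fin dm → Bool => term ch e Z L i.val true w)) ^ 2) +
        (av (fun w : Fin dm → Bool => term ch e Z L i.val false w ^ 2) -
        (av (fun w : Fin dm → Bool => term ch e Z L i.val false w)) ^ 2) ≤
        α * (Z X / 2 ^ e X)
    rw [e2]
    have : α * ((Z (ch X false) + Z (ch X true)) / 2 ^ e X) =
        α * (Z (ch X true) / 2 ^ e X) + α * (Z (ch X false) / 2 ^ e X) := by ring
    rw [this]
    linarith

end Pool.Agent.Lib.P7sG
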